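import Pool.Agent.H79.PT.Loop

/-!
More closure properties of polynomial-time functions: `flatMap`, `filter`, division with
remainder of unary numbers, evaluation of polynomials.
-/

set_option autoImplicit false

namespace Pool.Agent.H79.Cx

open Function

variable {α β γ δ σ : Type} [Enc α] [Enc β] [Enc γ] [Enc δ] [Enc σ]

theorem sz_append (l m : List β) : sz (l ++ m) + 1 = sz l + sz m := by
  induction l with
  | nil => simp; omega
  | cons b l ih =>
    simp only [List.cons_append, sz_cons]
    omega

theorem foldl_append_map {β γ : Type} (f : β → List γ) (l : List β) (acc : List γ) :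
    l.foldl (fun acc b => acc ++ f b) acc = acc ++ l.flatMap f := by
  induction l generalizing acc with
  | nil => simp
  | cons b l ih => rw [List.foldl_cons, ih, List.flatMap_cons, List.append_assoc]

omit [Enc β] in
theorem sz_flatMap_le (f : β → List γ) (l : List β) (B : ℕ) (h : ∀ b ∈ l, sz (f b) ≤ B) :
    sz (l.flatMap f) ≤ 1 + l.length * B := by
  induction l with
  | nil => simp
  | cons b l ih =>
    have h1 := h b (by simp)
    have h2 := ih (fun c hc => h c (by simp [hc]))
    have h3 := sz_append (f b) (l.flatMap f)
    rw [List.flatMap_cons, List.length_cons, Nat.succ_mul]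
    omega

@[fun_prop]
theorem PT.flatMap {f : α → β → List γ} {l : α → List β} (hf : PT (fun p : α × β => f p.1 p.2))
    (hl : PT l) : PT (fun a => (l a).flatMap (f a)) := by
  obtain ⟨R, hR⟩ := hl.size_le
  obtain ⟨Q, hQ⟩ := hf.size_le
  have h : PT (fun a => (l a).foldl (fun acc b => acc ++ f a b) []) := by
    refine PT.foldl (f := fun a acc b => acc ++ f a b) ?_ hl (by fun_prop)
      (1 + R * (Q.comp (1 + Polynomial.X + R))) ?_
    · refine PT.append (by fun_prop) ?_
      exact hf.comp (f := fun p : α × List γ × β => (p.1, p.2.2)) (by fun_prop)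
    · intro a i _
      rw [foldl_append_map, List.nil_append]
      refine (sz_flatMap_le _ _ (Q.eval (1 + sz a + R.eval (sz a))) ?_).trans ?_
      · intro b hb
        refine (hQ (a, b)).trans (eval_mono Q ?_)
        simp only [sz_pair]
        have h1 := sz_mem_le (List.mem_of_mem_take hb)
        have h2 := hR a
        omega
      · simp only [Polynomial.eval_add, Polynomial.eval_one, Polynomial.eval_mul,
          Polynomial.eval_comp, Polynomial.eval_X]
        refine Nat.add_le_add_left (Nat.mul_le_mul_right _ ?_) _
        have h1 := length_le_sz (l a)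
        have h2 := hR a
        have h3 := List.length_take_le i (l a)
        omega
  refine cast (congrArg _ (funext fun a => ?_)) h
  rw [foldl_append_map, List.nil_append]

@[fun_prop]
theorem PT.map' {f : α → β → γ} {l : α → List β} (hf : PT (fun p : α × β => f p.1 p.2))
    (hl : PT l) : PT (fun a => (l a).map (f a)) := PT.map hf hl

@[fun_prop]
theorem PT.filter {f : α → β → Bool} {l : α → List β} (hf : PT (fun p : α × β => f p.1 p.2))
    (hl : PT l) : PT (fun a => (l a).filter (f a)) := by
  have h : PT (fun a => (l a).flatMap (fun b => if f a b = true then [b] else [])) := by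
    refine PT.flatMap (f := fun a b => if f a b = true then [b] else []) ?_ hl
    refine PT.ite' (p := fun p : α × β => f p.1 p.2 = true) ?_ (by fun_prop) (by fun_prop)
    exact PT.dTrue hf
  refine cast (congrArg _ (funext fun a => ?_)) h
  induction l a with
  | nil => rfl
  | cons b l ih =>
    rw [List.flatMap_cons, ih]
    cases hb : f a b <;> simp [hb]

theorem PT.congr {f g : α → β} (hf : PT f) (h : ∀ x, f x = g x) : PT g := by
  have : f = g := funext h
  rwa [← this]

@[fun_prop]
theorem PT.polyEval {f : α → ℕ} (hf : PT f) (P : Polynomial ℕ) : PT (fun x => P.eval (f x)) := by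
  induction P using Polynomial.induction_on' with
  | add p q hp hq =>
    simp only [Polynomial.eval_add]
    exact PT.add hp hq
  | monomial n a =>
    simp only [Polynomial.eval_monomial]
    fun_prop

/-- Division with remainder by repeated subtraction. -/
theorem iterate_divMod (m b : ℕ) (hb : 0 < b) (i : ℕ) :
    (fun s : ℕ × ℕ => if b ≤ s.2 then (s.1 + 1, s.2 - b) else s)^[i] (0, m) =
      (min i (m / b), m - b * min i (m / b)) := by
  induction i with
  | zero => simp
  | succ i ih =>
    rw [iterate_succ_apply', ih]
    dsimp only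
    have h0 : b * (m / b) ≤ m := Nat.mul_div_le m b
    rcases le_or_gt (m / b) i with h | h
    · rw [Nat.min_eq_right h, Nat.min_eq_right (h.trans (Nat.le_succ i)), if_neg]
      have := Nat.lt_mul_div_succ m hb
      rw [Nat.mul_succ] at this
      omega
    · rw [Nat.min_eq_left h.le, Nat.min_eq_left h, if_pos]
      · rw [Prod.mk.injEq]
        refine ⟨rfl, ?_⟩
        rw [Nat.sub_sub, Nat.mul_succ]
      · have : b * (i + 1) ≤ b * (m / b) := Nat.mul_le_mul_left _ h
        rw [Nat.mul_succ] at this
        omega

theorem iterate_divMod_le (m b i : ℕ) :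
    ((fun s : ℕ × ℕ => if b ≤ s.2 then (s.1 + 1, s.2 - b) else s)^[i] (0, m)).1 ≤ i ∧
    ((fun s : ℕ × ℕ => if b ≤ s.2 then (s.1 + 1, s.2 - b) else s)^[i] (0, m)).2 ≤ m := by
  induction i with
  | zero => simp
  | succ i ih =>
    rw [iterate_succ_apply']
    obtain ⟨h1, h2⟩ := ih
    split_ifs
    · dsimp only
      omega
    · omega

theorem PT.divMod {f g : α → ℕ} (hf : PT f) (hg : PT g) :
    PT (fun x => (f x / g x, f x % g x)) := by
  obtain ⟨F, hF⟩ := hf.size_le
  have h : PT (fun x => if g x = 0 then (0, f x) else
      (fun s : ℕ × ℕ => if g x ≤ s.2 then (s.1 + 1, s.2 - g x) else s)^[f x] (0, f x)) := by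
    refine PT.ite' (by fun_prop) (by fun_prop) ?_
    refine PT.iterate (f := fun x s => if g x ≤ s.2 then (s.1 + 1, s.2 - g x) else s)
      (by fun_prop) hf (by fun_prop) (2 * F + 3) ?_
    intro a i hi
    have h1 := iterate_divMod_le (f a) (g a) i
    have h2 := hF a
    rw [sz_nat] at h2
    simp only [sz_pair, sz_nat, Polynomial.eval_add, Polynomial.eval_mul, Polynomial.eval_ofNat]
    omega
  refine PT.congr h fun x => ?_
  split_ifs with h0
  · simp [h0]
  · rw [iterate_divMod _ _ (by omega)]
    have h1 : min (f x) (f x / g x) = f x / g x := Nat.min_eq_right (Nat.div_le_self _ _)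
    rw [h1]
    have h2 := Nat.div_add_mod (f x) (g x)
    rw [Prod.mk.injEq]
    refine ⟨rfl, ?_⟩
    omega

@[fun_prop]
theorem PT.div' {f g : α → ℕ} (hf : PT f) (hg : PT g) : PT (fun x => f x / g x) :=
  PT.fst' (PT.divMod hf hg)

@[fun_prop]
theorem PT.mod' {f g : α → ℕ} (hf : PT f) (hg : PT g) : PT (fun x => f x % g x) :=
  PT.snd' (PT.divMod hf hg)

theorem PT.natSum {l : α → List ℕ} (hl : PT l) : PT (fun x => (l x).sum) := by
  obtain ⟨R, hR⟩ := hl.size_le
  have h : PT (fun x => (l x).foldl (fun s z => s + z) 0) := by
    refine PT.foldl (f := fun _ s z => s + z) (by fun_prop) hl (by fun_prop) (R + 1) ?_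
    intro a i _
    have key : ∀ (l : List ℕ) (s : ℕ), sz (l.foldl (fun s z => s + z) s) ≤ sz s + sz l := by
      intro l
      induction l with
      | nil => intro s; simp
      | cons b l ih =>
        intro s
        rw [List.foldl_cons]
        have := ih (s + b)
        rw [sz_cons]
        rw [sz_nat (s + b)] at this
        rw [sz_nat s, sz_nat b]
        omega
    have h1 := key ((l a).take i) 0
    have h2 := sz_take_le (l a) i
    have h3 := hR a
    simp only [sz_nat, Polynomial.eval_add, Polynomial.eval_one] at h1 ⊢
    omega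
  refine PT.congr h fun x => ?_
  exact (List.sum_eq_foldl).symm

attribute [fun_prop] PT.natSum

end Pool.Agent.H79.Cx
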