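import Pool.Agent.H78.NP.Form
import Pool.Agent.H78.NP.More

/-!
# The formula of a machine is computable in polynomial time
-/

set_option autoImplicit false

namespace Pool.Agent.H78.NP

open Function Pool.Agent.H79.Cx

variable {α : Type} [Enc α]

@[fun_prop]
theorem PT_ix {I W t i s : α → ℕ} (hI : PT I) (hW : PT W) (ht : PT t) (hi : PT i) (hs : PT s) :
    PT (fun a => ix (I a) (W a) (t a) (i a) (s a)) := by
  unfold ix
  fun_prop

@[fun_prop]
theorem PT_wid {x : α → List Bool} {P T : α → ℕ} (hx : PT x) (hP : PT P) (hT : PT T) :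
    PT (fun a => wid (x a) (P a) (T a)) := by
  unfold wid
  fun_prop

@[fun_prop]
theorem PT_cPos {f : α → ℕ} (hf : PT f) : PT (fun a => cPos (f a)) := by
  unfold cPos
  fun_prop

@[fun_prop]
theorem PT_cNeg {f : α → ℕ} (hf : PT f) : PT (fun a => cNeg (f a)) := by
  unfold cNeg
  fun_prop

@[fun_prop]
theorem PT_cImp {f g h : α → ℕ} (hf : PT f) (hg : PT g) (hh : PT h) :
    PT (fun a => cImp (f a) (g a) (h a)) := by
  unfold cImp
  fun_prop

@[fun_prop]
theorem PT_cOr {f g h : α → ℕ} (hf : PT f) (hg : PT g) (hh : PT h) :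
    PT (fun a => cOr (f a) (g a) (h a)) := by
  unfold cOr
  fun_prop

@[fun_prop]
theorem PT_form (D : Tmpl) {x : α → List Bool} {P T : α → ℕ} (hx : PT x) (hP : PT P)
    (hT : PT T) : PT (fun a => form D (x a) (P a) (T a)) := by
  unfold form
  fun_prop

end Pool.Agent.H78.NP
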