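import Pool.Agent.H78.NP.Defs
import Pool.Agent.H79.PT.Basic

/-!
# From polynomial-time functions on words to machines
-/

set_option autoImplicit false

namespace Pool.Agent.H78.NP

open Function Pool.Agent.H79.Cx Turing

/-- Pour the stack `v` into the stack `a`. -/
def pourVA : Prog :=
  .loop .v isS (.seq (.ite .v isT (.push .a true) (.push .a false)) (.pop .v))

theorem run_pourVA (x : List Bool) : ∀ (a b c : List Bool),
    RunLe pourVA (st x a b c) (st [] (x.reverse ++ a) b c) (4 * x.length + 1) := by
  induction x with
  | nil => intro a b c; exact RunLe.loopF (by simp)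
  | cons y x ih =>
    intro a b c
    have h0 : RunLe (.ite .v isT (.push .a true) (.push .a false)) (st (y :: x) a b c)
        (st (y :: x) (y :: a) b c) 2 := by
      cases y
      · have h := RunLe.push .a false (st (false :: x) a b c)
        simp only [st_a, update_a] at h
        exact RunLe.iteF (by simp) h
      · have h := RunLe.push .a true (st (true :: x) a b c)
        simp only [st_a, update_a] at h
        exact RunLe.iteT (by simp) h
    have h1 := RunLe.pop .v (st (y :: x) (y :: a) b c)
    simp only [st_v, update_v, List.tail_cons] at h1
    have h2 := RunLe.loopT (k := .v) (t := isS) (S := st (y :: x) a b c) (by simp)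
      (RunLe.seq h0 h1) (ih (y :: a) b c)
    simp only [List.reverse_cons, List.append_assoc, List.cons_append, List.nil_append]
    exact h2.mono (by simp; omega)

/-- Body of the loop writing the code of a word. -/
def codeBody : Prog :=
  .seq (.ite .a isT (.seq (.push .v false) (.seq (.push .v false) (.push .v true)))
    (.push .v false)) (.seq (.push .v true) (.pop .a))

/-- Write the code of the word on the stack `a` (reversed) in front of the stack `v`. -/
def codeLoop : Prog := .loop .a isS codeBody

theorem run_codeLoop (x : List Bool) : ∀ (y : List Bool),
    RunLe codeLoop (st (cd y) x [] []) (st (cd (x.reverse ++ y)) [] [] [])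
      (8 * x.length + 1) := by
  induction x with
  | nil => intro y; exact RunLe.loopF (by simp)
  | cons b x ih =>
    intro y
    have h0 : RunLe codeBody (st (cd y) (b :: x) [] []) (st (cd (b :: y)) x [] []) 6 := by
      have hb : cd (b :: y) = true :: (cd b ++ cd y) := rfl
      cases b with
      | true =>
        have hc : cd true = [true, false, false] := rfl
        rw [hb, hc]
        have h1 := RunLe.push .v false (st (cd y) (true :: x) [] [])
        simp only [st_v, update_v] at h1
        have h2 := RunLe.push .v false (st (false :: cd y) (true :: x) [] [])
        simp only [st_v, update_v] at h2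
        have h3 := RunLe.push .v true (st (false :: false :: cd y) (true :: x) [] [])
        simp only [st_v, update_v] at h3
        have h4 := RunLe.push .v true (st (true :: false :: false :: cd y) (true :: x) [] [])
        simp only [st_v, update_v] at h4
        have h5 := RunLe.pop .a (st (true :: true :: false :: false :: cd y) (true :: x) [] [])
        simp only [st_a, update_a, List.tail_cons] at h5
        exact (RunLe.seq (RunLe.iteT (k := .a) (t := isT) (by simp)
          (RunLe.seq h1 (RunLe.seq h2 h3))) (RunLe.seq h4 h5)).mono (by omega)
      | false =>
        have hc : cd false = [false] := rfl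
        rw [hb, hc]
        have h1 := RunLe.push .v false (st (cd y) (false :: x) [] [])
        simp only [st_v, update_v] at h1
        have h4 := RunLe.push .v true (st (false :: cd y) (false :: x) [] [])
        simp only [st_v, update_v] at h4
        have h5 := RunLe.pop .a (st (true :: false :: cd y) (false :: x) [] [])
        simp only [st_a, update_a, List.tail_cons] at h5
        exact (RunLe.seq (RunLe.iteF (k := .a) (t := isT) (by simp) h1)
          (RunLe.seq h4 h5)).mono (by omega)
    have h2 := RunLe.loopT (k := .a) (t := isS) (S := st (cd y) (b :: x) [] []) (by simp) h0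
      (ih (b :: y))
    simp only [List.reverse_cons, List.append_assoc, List.cons_append, List.nil_append]
    exact h2.mono (by simp; omega)

/-- Turn the raw word on the stack `v` into its code. -/
def preP : Prog := .seq pourVA (.seq (.push .v false) codeLoop)

theorem run_preP (x : List Bool) :
    RunLe preP (st x [] [] []) (st (cd x) [] [] []) (12 * x.length + 3) := by
  have h1 := run_pourVA x [] [] []
  have h2 := RunLe.push .v false (st [] (x.reverse ++ []) [] [])
  simp only [st_v, update_v] at h2
  have h3 := run_codeLoop (x.reverse ++ []) []
  have e : (x.reverse ++ []).reverse ++ [] = x := by simp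
  rw [e] at h3
  refine (RunLe.seq h1 (RunLe.seq h2 h3)).mono ?_
  simp only [List.append_nil, List.length_reverse]
  omega

theorem sz_word_le (x : List Bool) : sz x ≤ 4 * x.length + 1 := by
  induction x with
  | nil => simp
  | cons b x ih =>
    have := sz_bool_le b
    simp only [sz_cons, List.length_cons]
    omega

/-- A polynomial-time function on words is computable by a machine in polynomial time. The output
`f x` is written as the code `cd (rep (f x))` of a representation. -/
theorem toTM2_word_rep {α β : Type} [Enc α] {f : List Bool → β} (rep : β → α)
    (hf : PT (fun x => rep (f x))) :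
    Nonempty (TM2ComputableInPolyTime (id : List Bool → List Bool) (fun b => cd (rep b)) f) := by
  obtain ⟨p, P, hp⟩ := hf
  refine toTM2 (.seq preP p) (12 * Polynomial.X + 3 + P.comp (4 * Polynomial.X + 1))
    fun x => ?_
  have h1 := hp x []
  rw [List.append_nil, List.append_nil] at h1
  obtain ⟨m, hm, hrun⟩ := RunLe.seq (run_preP x) h1
  refine ⟨m, hm.trans ?_, ?_⟩
  · simp only [Polynomial.eval_add, Polynomial.eval_mul, Polynomial.eval_ofNat,
      Polynomial.eval_X, Polynomial.eval_comp, Polynomial.eval_one, id]
    exact Nat.add_le_add_left (eval_mono P (sz_word_le x)) _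
  · rw [only_eq, only_eq]
    exact hrun

/-- A polynomial-time function on words is computable by a machine in polynomial time. -/
theorem toTM2_word {α : Type} [Enc α] {f : List Bool → α} (hf : PT f) :
    Nonempty (TM2ComputableInPolyTime (id : List Bool → List Bool) cd f) :=
  toTM2_word_rep (fun a => a) hf

/-- NP-hardness under reductions in the calculus of polynomial-time functions. -/
def NPH {α : Type} [Enc α] (Q : α → Prop) : Prop :=
  ∀ L : Set (List Bool), InNP L → ∃ f : List Bool → α, PT f ∧ ∀ x, x ∈ L ↔ Q (f x)

theorem NPH.npHard {α : Type} [Enc α] {Q : α → Prop} (h : NPH Q) : NPHard cd Q := by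
  intro L hL
  obtain ⟨f, hf, hfx⟩ := h L hL
  exact ⟨f, toTM2_word hf, hfx⟩

theorem NPH.of_reduction {α β : Type} [Enc α] [Enc β] {Q : α → Prop} {Q' : β → Prop}
    (h : NPH Q) (g : α → β) (hg : PT g) (hgQ : ∀ a, Q a ↔ Q' (g a)) : NPH Q' := by
  intro L hL
  obtain ⟨f, hf, hfx⟩ := h L hL
  exact ⟨fun x => g (f x), PT.comp hg hf, fun x => (hfx x).trans (hgQ _)⟩

end Pool.Agent.H78.NP
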