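import Pool.Agent.H78.NP.Micro
import Pool.Agent.H78.NP.Raw
import Pool.Agent.H78.NP.FormPT

/-!
# The Cook–Levin theorem
-/

set_option autoImplicit false

namespace Pool.Agent.H78.NP

open Turing Function Computability Pool.Agent.H79.Cx

open Classical in
/-- The symbols representing the output `false`. -/
noncomputable def rej (M : FinTM2) (g : M.Γ M.k₁) : Finset (Smb M) :=
  (FA M).filter fun a => decS M M.k₁ a = some g

theorem acc_iff {M : FinTM2} (ea : Option Bool → M.Γ M.k₀) (o : Bool → M.Γ M.k₁)
    (ho : Injective o) (x u : List Bool) (b : Bool) (n T : ℕ)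
    (h : TM2OutputsInTime M ((pairEnc (x, u)).map ea) (some ((encodeBool b).map o)) n)
    (hT : n * bnd M ≤ T) :
    (∀ a ∈ rej M (o false), (((smOf M).run (M.m M.main, M.initialState) M.k₀
      (SM.inp (fun c => (Sum.inl (ea c) : Smb M)) x u) T).2 M.k₁).head? ≠ some a) ↔ b = true := by
  classical
  obtain ⟨S', hS', hz⟩ := exists_run _ _ n h T hT
  have e : SM.inp (fun c => (Sum.inl (ea c) : Smb M)) x u =
      ((pairEnc (x, u)).map ea).map Sum.inl := by
    rw [List.map_map]
    rfl
  rw [e, hS']
  have hz' : (S' M.k₁).map (decS M M.k₁) = [some (o b)] := hz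
  obtain ⟨a, ha⟩ : ∃ a, S' M.k₁ = [a] := by
    have := congrArg List.length hz'
    rw [List.length_map] at this
    exact List.length_eq_one_iff.1 this
  rw [ha] at hz'
  simp only [List.map_cons, List.map_nil, List.cons.injEq, and_true] at hz'
  have hmem : a ∈ FA M := by
    have h1 := SM.run_mem (M := smOf M) (FC := FC M) (FA := FA M)
      (c₀ := (M.m M.main, M.initialState)) (k₀ := M.k₀) (fun c hc h _ => δ_mem c hc h)
      (fun c hc a => op_mem c hc a) (mem_FC.2 (m_mem_FS _))
      (((pairEnc (x, u)).map ea).map Sum.inl) (fun a ha => by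
        obtain ⟨g, _, rfl⟩ := List.mem_map.1 ha
        exact inl_mem_FA g) T
    refine h1.2 M.k₁ a ?_
    rw [hS']
    change a ∈ S' M.k₁
    rw [ha]
    exact List.mem_singleton_self a
  dsimp only
  rw [ha]
  simp only [List.head?_cons, ne_eq, Option.some.injEq]
  constructor
  · intro hacc
    by_contra hb
    rw [Bool.not_eq_true] at hb
    subst hb
    refine hacc a ?_ rfl
    unfold rej
    rw [Finset.mem_filter]
    exact ⟨hmem, hz'⟩
  · rintro rfl a' ha' rfl
    unfold rej at ha'
    rw [Finset.mem_filter, hz'] at ha'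
    have := ho (Option.some.inj ha'.2)
    simp at this

/-- **Cook–Levin theorem**: 3SAT is NP-hard. -/
theorem nph_sat3 : NPH Sat3 := by
  classical
  rintro L ⟨p, V, ⟨hV⟩, hL⟩
  set M := hV.tm with hM
  set ea : Option Bool → M.Γ M.k₀ := fun c => hV.inputAlphabet.invFun c with hea
  set o : Bool → M.Γ M.k₁ := fun b => hV.outputAlphabet.invFun b with ho
  have hoinj : Injective o := hV.outputAlphabet.symm.injective
  have := M.kFin
  obtain ⟨code, W, hinj, hlt⟩ := SM.exists_code (C := Ctl M) (K := M.K) (A := Smb M)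
    (FC M) (FA M)
  set D := (smOf M).tmpl (FC M) (FA M) (M.m M.main, M.initialState) M.k₀ M.k₁
    (fun c => (Sum.inl (ea c) : Smb M)) (rej M (o false)) code W with hD
  refine ⟨fun x => form D x (p.eval x.length)
    (hV.time.eval (x.length + 1 + p.eval x.length) * bnd M), by fun_prop, fun x => ?_⟩
  rw [hD, SM.sat3_form_iff (smOf M) (FC M) (FA M) (M.m M.main, M.initialState) M.k₀ M.k₁
    (fun c => (Sum.inl (ea c) : Smb M)) (rej M (o false)) code W
    (fun c hc h _ => δ_mem c hc h) (fun c hc a => op_mem c hc a) (mem_FC.2 (m_mem_FS _))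
    (fun b => inl_mem_FA _) (Finset.filter_subset _ _) hinj hlt, hL]
  refine exists_congr fun u => and_congr_right fun hu => ?_
  refine (acc_iff ea o hoinj x u (V (x, u)) _ _ (hV.outputsFun (x, u)) ?_).symm
  refine Nat.mul_le_mul_right _ (eval_mono _ ?_)
  simp only [pairEnc, List.length_append, List.length_map, List.length_cons]
  omega

end Pool.Agent.H78.NP
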