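import Mathlib

/-!
# Composition of Mathlib's `FinTM2` machines
-/

set_option autoImplicit false

namespace Pool.Agent.H78.NP

open Turing

section Iter

variable {A B : Type*}

lemma iter_none (f : A → Option A) (n : ℕ) : (flip bind f)^[n] none = none := by
  induction n with
  | zero => rfl
  | succ n ih => rw [Function.iterate_succ_apply]; exact ih

lemma iter_succ (f : A → Option A) (n : ℕ) (c : A) :
    (flip bind f)^[n + 1] (some c) = (flip bind f)^[n] (f c) := by
  rw [Function.iterate_succ_apply]; rfl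

lemma iter_map {f : A → Option A} {g : B → Option B} {φ : A → B}
    (h : ∀ c c', f c = some c' → g (φ c) = some (φ c')) (n : ℕ) (c c' : A)
    (hn : (flip bind f)^[n] (some c) = some c') :
    (flip bind g)^[n] (some (φ c)) = some (φ c') := by
  induction n generalizing c with
  | zero =>
    have : c = c' := by simpa using hn
    subst this; rfl
  | succ n ih =>
    rw [iter_succ] at hn ⊢
    cases hc : f c with
    | none => rw [hc, iter_none] at hn; exact absurd hn (by simp)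
    | some c1 =>
      rw [hc] at hn
      rw [h c c1 hc]
      exact ih c1 hn

lemma iter_trans {f : A → Option A} {m n : ℕ} {a b : A} {c : Option A}
    (h1 : (flip bind f)^[m] (some a) = some b) (h2 : (flip bind f)^[n] (some b) = c) :
    (flip bind f)^[n + m] (some a) = c := by
  rw [Function.iterate_add_apply, h1, h2]

end Iter

namespace Comp

section Construction

variable {K₁ K₂ : Type} [DecidableEq K₁] [DecidableEq K₂] {Γ₁ : K₁ → Type} {Γ₂ : K₂ → Type}
  {Λ₁ Λ₂ σ₁ σ₂ : Type}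

/-- stack alphabets of the composition -/
abbrev G (Γ₁ : K₁ → Type) (Γ₂ : K₂ → Type) (k₂ : K₂) : K₁ ⊕ Option K₂ → Type
  | .inl k => Γ₁ k
  | .inr none => Γ₂ k₂
  | .inr (some k) => Γ₂ k

/-- lift of the statements of the first machine -/
def lift1 (k₂ : K₂) (R : Type) : TM2.Stmt Γ₁ Λ₁ σ₁ →
    TM2.Stmt (G Γ₁ Γ₂ k₂) (Λ₁ ⊕ Bool ⊕ Λ₂) (σ₁ × R × σ₂)
  | .push k f q => .push (Sum.inl k) (fun s => f s.1) (lift1 k₂ R q)
  | .peek k f q => .peek (Sum.inl k) (fun s a => (f s.1 a, s.2)) (lift1 k₂ R q)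
  | .pop k f q => .pop (Sum.inl k) (fun s a => (f s.1 a, s.2)) (lift1 k₂ R q)
  | .load a q => .load (fun s => (a s.1, s.2)) (lift1 k₂ R q)
  | .branch f q₁ q₂ => .branch (fun s => f s.1) (lift1 k₂ R q₁) (lift1 k₂ R q₂)
  | .goto f => .goto (fun s => Sum.inl (f s.1))
  | .halt => .goto (fun _ => Sum.inr (Sum.inl true))

/-- lift of the statements of the second machine -/
def lift2 (k₂ : K₂) (R : Type) : TM2.Stmt Γ₂ Λ₂ σ₂ →
    TM2.Stmt (G Γ₁ Γ₂ k₂) (Λ₁ ⊕ Bool ⊕ Λ₂) (σ₁ × R × σ₂)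
  | .push k f q => .push (Sum.inr (some k)) (fun s => f s.2.2) (lift2 k₂ R q)
  | .peek k f q => .peek (Sum.inr (some k)) (fun s a => (s.1, s.2.1, f s.2.2 a)) (lift2 k₂ R q)
  | .pop k f q => .pop (Sum.inr (some k)) (fun s a => (s.1, s.2.1, f s.2.2 a)) (lift2 k₂ R q)
  | .load a q => .load (fun s => (s.1, s.2.1, a s.2.2)) (lift2 k₂ R q)
  | .branch f q₁ q₂ => .branch (fun s => f s.2.2) (lift2 k₂ R q₁) (lift2 k₂ R q₂)
  | .goto f => .goto (fun s => Sum.inr (Sum.inr (f s.2.2)))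
  | .halt => .halt

open Classical in
/-- the first transfer statement -/
noncomputable def trans1 {k₁ : K₁} {k₂ : K₂} (e : Γ₁ k₁ ≃ Γ₂ k₂) :
    TM2.Stmt (G Γ₁ Γ₂ k₂) (Λ₁ ⊕ Bool ⊕ Λ₂) (σ₁ × Option (Γ₂ k₂) × σ₂) :=
  if h : Nonempty (Γ₂ k₂) then
    .pop (Sum.inl k₁) (fun s (a : Option (Γ₁ k₁)) => (s.1, a.map e, s.2.2))
      (.branch (fun s => s.2.1.isSome)
        (.push (Sum.inr none) (fun s => (s.2.1.getD h.some : Γ₂ k₂))
          (.goto (fun _ => Sum.inr (Sum.inl true))))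
        (.goto (fun _ => Sum.inr (Sum.inl false))))
  else .goto (fun _ => Sum.inr (Sum.inl false))

open Classical in
/-- the second transfer statement -/
noncomputable def trans2 (Γ₁ : K₁ → Type) (Γ₂ : K₂ → Type) (k₂ : K₂) (main : Λ₂) :
    TM2.Stmt (G Γ₁ Γ₂ k₂) (Λ₁ ⊕ Bool ⊕ Λ₂) (σ₁ × Option (Γ₂ k₂) × σ₂) :=
  if h : Nonempty (Γ₂ k₂) then
    .pop (Sum.inr none) (fun s (a : Option (Γ₂ k₂)) => (s.1, a, s.2.2))
      (.branch (fun s => s.2.1.isSome)
        (.push (Sum.inr (some k₂)) (fun s => (s.2.1.getD h.some : Γ₂ k₂))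
          (.goto (fun _ => Sum.inr (Sum.inl false))))
        (.goto (fun _ => Sum.inr (Sum.inr main))))
  else .goto (fun _ => Sum.inr (Sum.inr main))

/-- combined stacks -/
def stk {k₂ : K₂} (S₁ : ∀ k, List (Γ₁ k)) (w : List (Γ₂ k₂)) (S₂ : ∀ k, List (Γ₂ k)) :
    ∀ k, List (G Γ₁ Γ₂ k₂ k)
  | .inl k => S₁ k
  | .inr none => w
  | .inr (some k) => S₂ k

omit [DecidableEq K₁] [DecidableEq K₂] in
@[simp] lemma stk_inl {k₂ : K₂} (S₁ : ∀ k, List (Γ₁ k)) (w : List (Γ₂ k₂))
    (S₂ : ∀ k, List (Γ₂ k)) (k : K₁) : stk S₁ w S₂ (Sum.inl k) = S₁ k := rfl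

omit [DecidableEq K₁] [DecidableEq K₂] in
@[simp] lemma stk_none {k₂ : K₂} (S₁ : ∀ k, List (Γ₁ k)) (w : List (Γ₂ k₂))
    (S₂ : ∀ k, List (Γ₂ k)) : stk S₁ w S₂ (Sum.inr none) = w := rfl

omit [DecidableEq K₁] [DecidableEq K₂] in
@[simp] lemma stk_some {k₂ : K₂} (S₁ : ∀ k, List (Γ₁ k)) (w : List (Γ₂ k₂))
    (S₂ : ∀ k, List (Γ₂ k)) (k : K₂) : stk S₁ w S₂ (Sum.inr (some k)) = S₂ k := rfl

lemma update_inl {k₂ : K₂} (S₁ : ∀ k, List (Γ₁ k)) (w : List (Γ₂ k₂)) (S₂ : ∀ k, List (Γ₂ k))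
    (k : K₁) (a : List (Γ₁ k)) :
    Function.update (stk S₁ w S₂) (Sum.inl k) a = stk (Function.update S₁ k a) w S₂ := by
  funext x
  rcases x with x | _ | x
  · by_cases h : x = k
    · subst h
      rw [stk_inl, Function.update_self, Function.update_self]
    · rw [Function.update_of_ne (fun h' => h (Sum.inl.inj h')), stk_inl, stk_inl,
        Function.update_of_ne h]
  · rw [Function.update_of_ne (by simp)]; rfl
  · rw [Function.update_of_ne (by simp)]; rfl

lemma update_none {k₂ : K₂} (S₁ : ∀ k, List (Γ₁ k)) (w : List (Γ₂ k₂)) (S₂ : ∀ k, List (Γ₂ k))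
    (a : List (Γ₂ k₂)) :
    Function.update (stk S₁ w S₂) (Sum.inr none) a = stk S₁ a S₂ := by
  funext x
  rcases x with x | _ | x
  · rw [Function.update_of_ne (by simp)]; rfl
  · rw [Function.update_self]; rfl
  · rw [Function.update_of_ne (by simp)]; rfl

lemma update_some {k₂ : K₂} (S₁ : ∀ k, List (Γ₁ k)) (w : List (Γ₂ k₂)) (S₂ : ∀ k, List (Γ₂ k))
    (k : K₂) (a : List (Γ₂ k)) :
    Function.update (stk S₁ w S₂) (Sum.inr (some k)) a = stk S₁ w (Function.update S₂ k a) := by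
  funext x
  rcases x with x | _ | x
  · rw [Function.update_of_ne (by simp)]; rfl
  · rw [Function.update_of_ne (by simp)]; rfl
  · by_cases h : x = k
    · subst h
      rw [stk_some, Function.update_self, Function.update_self]
    · rw [Function.update_of_ne (fun h' => h (by simpa using h')), stk_some, stk_some,
        Function.update_of_ne h]

/-- embedding of the configurations of the first machine -/
def emb1 (k₂ : K₂) (Γ₂ : K₂ → Type) (Λ₂ : Type) {R : Type} (r : R) (i₂ : σ₂)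
    (c : TM2.Cfg Γ₁ Λ₁ σ₁) :
    TM2.Cfg (G Γ₁ Γ₂ k₂) (Λ₁ ⊕ Bool ⊕ Λ₂) (σ₁ × R × σ₂) where
  l := some (match c.l with
    | some l => Sum.inl l
    | none => Sum.inr (Sum.inl true))
  var := (c.var, r, i₂)
  stk := stk c.stk [] (fun _ => [])

/-- embedding of the configurations of the second machine -/
def emb2 (k₂ : K₂) (Γ₁ : K₁ → Type) (Λ₁ : Type) {R : Type} (r : R) (i₁ : σ₁)
    (c : TM2.Cfg Γ₂ Λ₂ σ₂) :
    TM2.Cfg (G Γ₁ Γ₂ k₂) (Λ₁ ⊕ Bool ⊕ Λ₂) (σ₁ × R × σ₂) where
  l := c.l.map (fun l => Sum.inr (Sum.inr l))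
  var := (i₁, r, c.var)
  stk := stk (fun _ => []) [] c.stk

lemma stepAux_lift1 (k₂ : K₂) {R : Type} (r : R) (i₂ : σ₂)
    (q : TM2.Stmt Γ₁ Λ₁ σ₁) (v : σ₁) (S : ∀ k, List (Γ₁ k)) :
    TM2.stepAux (lift1 k₂ R q : TM2.Stmt (G Γ₁ Γ₂ k₂) (Λ₁ ⊕ Bool ⊕ Λ₂) (σ₁ × R × σ₂)) (v, r, i₂)
      (stk S [] (fun _ => [])) = emb1 k₂ Γ₂ Λ₂ r i₂ (TM2.stepAux q v S) := by
  induction q generalizing v S with
  | push k f q ih =>
    simp only [lift1, TM2.stepAux]
    rw [update_inl]
    exact ih _ _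
  | peek k f q ih =>
    simp only [lift1, TM2.stepAux]
    exact ih _ _
  | pop k f q ih =>
    simp only [lift1, TM2.stepAux]
    rw [update_inl]
    exact ih _ _
  | load a q ih =>
    simp only [lift1, TM2.stepAux]
    exact ih _ _
  | branch f q₁ q₂ ih₁ ih₂ =>
    simp only [lift1, TM2.stepAux]
    cases f v
    · exact ih₂ _ _
    · exact ih₁ _ _
  | goto f => rfl
  | halt => rfl

lemma stepAux_lift2 (k₂ : K₂) {R : Type} (r : R) (i₁ : σ₁)
    (q : TM2.Stmt Γ₂ Λ₂ σ₂) (v : σ₂) (S : ∀ k, List (Γ₂ k)) :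
    TM2.stepAux (lift2 k₂ R q : TM2.Stmt (G Γ₁ Γ₂ k₂) (Λ₁ ⊕ Bool ⊕ Λ₂) (σ₁ × R × σ₂)) (i₁, r, v)
      (stk (fun _ => []) [] S) = emb2 k₂ Γ₁ Λ₁ r i₁ (TM2.stepAux q v S) := by
  induction q generalizing v S with
  | push k f q ih =>
    simp only [lift2, TM2.stepAux]
    rw [update_some]
    exact ih _ _
  | peek k f q ih =>
    simp only [lift2, TM2.stepAux]
    exact ih _ _
  | pop k f q ih =>
    simp only [lift2, TM2.stepAux]
    rw [update_some]
    exact ih _ _
  | load a q ih =>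
    simp only [lift2, TM2.stepAux]
    exact ih _ _
  | branch f q₁ q₂ ih₁ ih₂ =>
    simp only [lift2, TM2.stepAux]
    cases f v
    · exact ih₂ _ _
    · exact ih₁ _ _
  | goto f => rfl
  | halt => rfl

variable (m₁ : Λ₁ → TM2.Stmt Γ₁ Λ₁ σ₁) (m₂ : Λ₂ → TM2.Stmt Γ₂ Λ₂ σ₂)

/-- the composed program -/
noncomputable def prog (main : Λ₂) {k₁ : K₁} {k₂ : K₂} (e : Γ₁ k₁ ≃ Γ₂ k₂) :
    Λ₁ ⊕ Bool ⊕ Λ₂ → TM2.Stmt (G Γ₁ Γ₂ k₂) (Λ₁ ⊕ Bool ⊕ Λ₂) (σ₁ × Option (Γ₂ k₂) × σ₂)
  | .inl l => lift1 k₂ _ (m₁ l)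
  | .inr (.inl true) => trans1 e
  | .inr (.inl false) => trans2 Γ₁ Γ₂ k₂ main
  | .inr (.inr l) => lift2 k₂ _ (m₂ l)

variable (main : Λ₂) {k₁ : K₁} {k₂ : K₂} (e : Γ₁ k₁ ≃ Γ₂ k₂)

lemma step_emb1 (i₂ : σ₂) (c c' : TM2.Cfg Γ₁ Λ₁ σ₁) (h : TM2.step m₁ c = some c') :
    TM2.step (prog m₁ m₂ main e) (emb1 k₂ Γ₂ Λ₂ none i₂ c) = some (emb1 k₂ Γ₂ Λ₂ none i₂ c') := by
  obtain ⟨l, v, S⟩ := c
  cases l with
  | none => exact absurd h (by simp [TM2.step])
  | some l =>
    have h' : c' = TM2.stepAux (m₁ l) v S := (Option.some.inj h).symm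
    rw [h']
    exact congrArg some (stepAux_lift1 k₂ none i₂ (m₁ l) v S)

lemma step_emb2 (i₁ : σ₁) (c c' : TM2.Cfg Γ₂ Λ₂ σ₂) (h : TM2.step m₂ c = some c') :
    TM2.step (prog m₁ m₂ main e) (emb2 k₂ Γ₁ Λ₁ none i₁ c) = some (emb2 k₂ Γ₁ Λ₁ none i₁ c') := by
  obtain ⟨l, v, S⟩ := c
  cases l with
  | none => exact absurd h (by simp [TM2.step])
  | some l =>
    have h' : c' = TM2.stepAux (m₂ l) v S := (Option.some.inj h).symm
    rw [h']
    exact congrArg some (stepAux_lift2 k₂ none i₁ (m₂ l) v S)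

/-- the stacks which are empty except for one -/
def single {K : Type} [DecidableEq K] {Γ : K → Type} (k : K) (x : List (Γ k)) :
    ∀ j, List (Γ j) := Function.update (fun _ => []) k x

lemma single_self {K : Type} [DecidableEq K] {Γ : K → Type} (k : K) (x : List (Γ k)) :
    single k x k = x := Function.update_self _ _ _

lemma single_nil {K : Type} [DecidableEq K] {Γ : K → Type} (k : K) :
    single k ([] : List (Γ k)) = fun _ => [] := by
  funext j
  by_cases hj : j = k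
  · subst hj; exact single_self _ _
  · exact Function.update_of_ne hj _ _

lemma update_nil {K : Type} [DecidableEq K] {Γ : K → Type} (k : K) :
    Function.update (fun _ => [] : ∀ j, List (Γ j)) k [] = fun _ => [] := single_nil k

lemma update_single {K : Type} [DecidableEq K] {Γ : K → Type} (k : K) (x y : List (Γ k)) :
    Function.update (single k x) k y = single k y := Function.update_idem _ _ _

lemma single_inl {k₂ : K₂} (k : K₁) (x : List (Γ₁ k)) :
    (single (Γ := G Γ₁ Γ₂ k₂) (Sum.inl k) x) = stk (single k x) [] (fun _ => []) := by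
  have h := update_inl (Γ₁ := Γ₁) (Γ₂ := Γ₂) (k₂ := k₂) (fun _ => []) [] (fun _ => []) k x
  have h0 : stk (Γ₁ := Γ₁) (Γ₂ := Γ₂) (k₂ := k₂) (fun _ => []) [] (fun _ => []) =
      fun _ => [] := by
    funext j
    rcases j with j | _ | j <;> rfl
  rw [h0] at h
  exact h

lemma single_some {k₂ : K₂} (k : K₂) (x : List (Γ₂ k)) :
    (single (Γ := G Γ₁ Γ₂ k₂) (Sum.inr (some k)) x) = stk (fun _ => []) [] (single k x) := by
  have h := update_some (Γ₁ := Γ₁) (Γ₂ := Γ₂) (k₂ := k₂) (fun _ => []) [] (fun _ => []) k x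
  have h0 : stk (Γ₁ := Γ₁) (Γ₂ := Γ₂) (k₂ := k₂) (fun _ => []) [] (fun _ => []) =
      fun _ => [] := by
    funext j
    rcases j with j | _ | j <;> rfl
  rw [h0] at h
  exact h

lemma step_t1_cons (v₁ : σ₁) (v₂ : σ₂) (a : Γ₁ k₁) (y : List (Γ₁ k₁)) (r : Option (Γ₂ k₂))
    (w : List (Γ₂ k₂)) :
    TM2.step (prog m₁ m₂ main e)
      ⟨some (Sum.inr (Sum.inl true)), (v₁, r, v₂), stk (single k₁ (a :: y)) w (fun _ => [])⟩ =
      some ⟨some (Sum.inr (Sum.inl true)), (v₁, some (e a), v₂),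
        stk (single k₁ y) (e a :: w) (fun _ => [])⟩ := by
  have hne : Nonempty (Γ₂ k₂) := ⟨e a⟩
  simp only [TM2.step, prog, trans1, dif_pos hne, TM2.stepAux, stk_inl, single_self,
    List.head?_cons, Option.map_some, List.tail_cons, update_inl, update_single,
    Option.isSome_some, cond_true, Option.getD_some, stk_none, update_none]

lemma step_t1_nil (v₁ : σ₁) (v₂ : σ₂) (r : Option (Γ₂ k₂))
    (w : List (Γ₂ k₂)) (hr : IsEmpty (Γ₂ k₂) → r = none) :
    TM2.step (prog m₁ m₂ main e)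
      ⟨some (Sum.inr (Sum.inl true)), (v₁, r, v₂), stk (single k₁ []) w (fun _ => [])⟩ =
      some ⟨some (Sum.inr (Sum.inl false)), (v₁, none, v₂),
        stk (fun _ => []) w (fun _ => [])⟩ := by
  by_cases hne : Nonempty (Γ₂ k₂)
  · simp only [TM2.step, prog, trans1, dif_pos hne, TM2.stepAux, stk_inl,
      List.head?_nil, Option.map_none, List.tail_nil, update_inl,
      Option.isSome_none, cond_false, single_nil, update_nil]
  · rw [hr (not_nonempty_iff.mp hne)]
    simp only [TM2.step, prog, trans1, dif_neg hne, TM2.stepAux, single_nil]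

lemma step_t2_cons (v₁ : σ₁) (v₂ : σ₂) (a : Γ₂ k₂) (r : Option (Γ₂ k₂))
    (w u : List (Γ₂ k₂)) :
    TM2.step (prog m₁ m₂ main e)
      ⟨some (Sum.inr (Sum.inl false)), (v₁, r, v₂), stk (fun _ => []) (a :: w) (single k₂ u)⟩ =
      some ⟨some (Sum.inr (Sum.inl false)), (v₁, some a, v₂),
        stk (fun _ => []) w (single k₂ (a :: u))⟩ := by
  have hne : Nonempty (Γ₂ k₂) := ⟨a⟩
  simp only [TM2.step, prog, trans2, dif_pos hne, TM2.stepAux, stk_none,
    List.head?_cons, List.tail_cons, update_none,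
    Option.isSome_some, cond_true, Option.getD_some, stk_some, single_self, update_some,
    update_single]

lemma step_t2_nil (v₁ : σ₁) (v₂ : σ₂) (r : Option (Γ₂ k₂))
    (u : List (Γ₂ k₂)) (hr : IsEmpty (Γ₂ k₂) → r = none) :
    TM2.step (prog m₁ m₂ main e)
      ⟨some (Sum.inr (Sum.inl false)), (v₁, r, v₂), stk (fun _ => []) [] (single k₂ u)⟩ =
      some ⟨some (Sum.inr (Sum.inr main)), (v₁, none, v₂),
        stk (fun _ => []) [] (single k₂ u)⟩ := by
  by_cases hne : Nonempty (Γ₂ k₂)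
  · simp only [TM2.step, prog, trans2, dif_pos hne, TM2.stepAux, stk_none,
      List.head?_nil, List.tail_nil, update_none, Option.isSome_none, cond_false]
  · rw [hr (not_nonempty_iff.mp hne)]
    simp only [TM2.step, prog, trans2, dif_neg hne, TM2.stepAux]

lemma trans1_run (v₁ : σ₁) (v₂ : σ₂) (y : List (Γ₁ k₁)) (r : Option (Γ₂ k₂)) (w : List (Γ₂ k₂))
    (hr : IsEmpty (Γ₂ k₂) → r = none) :
    (flip bind (TM2.step (prog m₁ m₂ main e)))^[y.length + 1]
      (some ⟨some (Sum.inr (Sum.inl true)), (v₁, r, v₂), stk (single k₁ y) w (fun _ => [])⟩) =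
      some ⟨some (Sum.inr (Sum.inl false)), (v₁, none, v₂),
        stk (fun _ => []) ((y.map e).reverse ++ w) (fun _ => [])⟩ := by
  induction y generalizing r w with
  | nil =>
    rw [List.length_nil, iter_succ, step_t1_nil m₁ m₂ main e v₁ v₂ r w hr]
    rfl
  | cons a y ih =>
    rw [List.length_cons, iter_succ, step_t1_cons,
      ih (some (e a)) (e a :: w) (fun hE => (hE.false (e a)).elim)]
    simp

lemma trans2_run (v₁ : σ₁) (v₂ : σ₂) (r : Option (Γ₂ k₂)) (w : List (Γ₂ k₂)) (u : List (Γ₂ k₂))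
    (hr : IsEmpty (Γ₂ k₂) → r = none) :
    (flip bind (TM2.step (prog m₁ m₂ main e)))^[w.length + 1]
      (some ⟨some (Sum.inr (Sum.inl false)), (v₁, r, v₂), stk (fun _ => []) w (single k₂ u)⟩) =
      some ⟨some (Sum.inr (Sum.inr main)), (v₁, none, v₂),
        stk (fun _ => []) [] (single k₂ (w.reverse ++ u))⟩ := by
  induction w generalizing r u with
  | nil =>
    rw [List.length_nil, iter_succ, step_t2_nil m₁ m₂ main e v₁ v₂ r u hr]
    rfl
  | cons a w ih =>
    rw [List.length_cons, iter_succ, step_t2_cons,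
      ih (some a) (a :: u) (fun hE => (hE.false a).elim)]
    simp

/-- the run of the composed machine -/
lemma run (main₁ : Λ₁) (i₁ : σ₁) (i₂ : σ₂) {k₁' : K₁} {k₂' : K₂}
    (x : List (Γ₁ k₁')) (y : List (Γ₁ k₁)) (z : List (Γ₂ k₂')) (n₁ n₂ : ℕ)
    (h1 : (flip bind (TM2.step m₁))^[n₁] (some ⟨some main₁, i₁, single k₁' x⟩) =
      some ⟨none, i₁, single k₁ y⟩)
    (h2 : (flip bind (TM2.step m₂))^[n₂] (some ⟨some main, i₂, single k₂ (y.map e)⟩) =
      some ⟨none, i₂, single k₂' z⟩) :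
    (flip bind (TM2.step (prog m₁ m₂ main e)))^[n₂ + ((y.length + 1) + ((y.length + 1) + n₁))]
      (some ⟨some (Sum.inl main₁), (i₁, none, i₂), stk (single k₁' x) [] (fun _ => [])⟩) =
      some ⟨none, (i₁, none, i₂), stk (fun _ => []) [] (single k₂' z)⟩ := by
  have a1 := iter_map (fun c c' h => step_emb1 m₁ m₂ main e i₂ c c' h) n₁ _ _ h1
  have a2 := trans1_run m₁ m₂ main e i₁ i₂ y none [] (fun _ => rfl)
  have a3 := trans2_run m₁ m₂ main e i₁ i₂ none ((y.map e).reverse ++ []) [] (fun _ => rfl)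
  have a4 := iter_map (fun c c' h => step_emb2 m₁ m₂ main e i₁ c c' h) n₂ _ _ h2
  rw [single_nil] at a3
  have e1 : ((y.map e).reverse ++ []).length = y.length := by simp
  have e2 : ((y.map e).reverse ++ []).reverse ++ [] = y.map e := by simp
  rw [e1, e2] at a3
  exact iter_trans (iter_trans (iter_trans a1 a2) a3) a4

end Construction

end Comp

lemma initList_eq (M : FinTM2) (x : List (M.Γ M.k₀)) :
    initList M x = ⟨some M.main, M.initialState, Comp.single M.k₀ x⟩ := by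
  unfold initList Comp.single
  congr 1
  funext k
  by_cases hk : k = M.k₀
  · subst hk
    simp
  · simp [hk]

lemma haltList_eq (M : FinTM2) (x : List (M.Γ M.k₁)) :
    haltList M x = ⟨none, M.initialState, Comp.single M.k₁ x⟩ := by
  unfold haltList Comp.single
  congr 1
  funext k
  by_cases hk : k = M.k₁
  · subst hk
    simp
  · simp [hk]

/-- the composed machine -/
noncomputable def compTM (M₁ M₂ : FinTM2) (e : M₁.Γ M₁.k₁ ≃ M₂.Γ M₂.k₀) : FinTM2 :=
  letI := M₁.kFin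
  letI := M₂.kFin
  letI := M₁.ΛFin
  letI := M₂.ΛFin
  letI := M₁.σFin
  letI := M₂.σFin
  letI := M₂.Γk₀Fin
  letI : Fintype (Comp.G M₁.Γ M₂.Γ M₂.k₀ (Sum.inl M₁.k₀)) := M₁.Γk₀Fin
  { K := M₁.K ⊕ Option M₂.K
    k₀ := Sum.inl M₁.k₀
    k₁ := Sum.inr (some M₂.k₁)
    Γ := Comp.G M₁.Γ M₂.Γ M₂.k₀
    Λ := M₁.Λ ⊕ Bool ⊕ M₂.Λ
    main := Sum.inl M₁.main
    σ := M₁.σ × Option (M₂.Γ M₂.k₀) × M₂.σ
    initialState := (M₁.initialState, none, M₂.initialState)
    m := Comp.prog M₁.m M₂.m M₂.main e }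

/-- Composition of two machines: run `M₁`, move its output to the input stack of `M₂`,
run `M₂`. -/
theorem exists_comp (M₁ M₂ : FinTM2) (e : M₁.Γ M₁.k₁ ≃ M₂.Γ M₂.k₀) :
    ∃ (M : FinTM2) (i : M.Γ M.k₀ ≃ M₁.Γ M₁.k₀) (o : M.Γ M.k₁ ≃ M₂.Γ M₂.k₁) (c : ℕ),
      ∀ (x : List (M₁.Γ M₁.k₀)) (y : List (M₁.Γ M₁.k₁)) (z : List (M₂.Γ M₂.k₁)) (t₁ t₂ : ℕ),
        Nonempty (TM2OutputsInTime M₁ x (some y) t₁) →
        Nonempty (TM2OutputsInTime M₂ (y.map e) (some z) t₂) →
        Nonempty (TM2OutputsInTime M (x.map i.symm) (some (z.map o.symm))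
          (c * (t₁ + t₂ + y.length + 1))) := by
  refine ⟨compTM M₁ M₂ e, Equiv.refl _, Equiv.refl _, 2, ?_⟩
  rintro x y z t₁ t₂ ⟨⟨n₁, g1⟩, l1⟩ ⟨⟨n₂, g2⟩, l2⟩
  dsimp only at l1 l2
  simp only [Option.map_some] at g1 g2
  rw [initList_eq, haltList_eq] at g1 g2
  have key := Comp.run M₁.m M₂.m M₂.main e M₁.main M₁.initialState M₂.initialState x y z
    n₁ n₂ g1 g2
  refine ⟨⟨⟨n₂ + ((y.length + 1) + ((y.length + 1) + n₁)), ?_⟩, by dsimp only; omega⟩⟩
  have hx : x.map (Equiv.refl (M₁.Γ M₁.k₀)).symm = x := by simp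
  have hz : z.map (Equiv.refl (M₂.Γ M₂.k₁)).symm = z := by simp
  have e1 : initList (compTM M₁ M₂ e) (x.map (Equiv.refl (M₁.Γ M₁.k₀)).symm) =
      ⟨some (Sum.inl M₁.main), (M₁.initialState, none, M₂.initialState),
        Comp.stk (Comp.single M₁.k₀ x) [] (fun _ => [])⟩ := by
    refine (congrArg (initList (compTM M₁ M₂ e)) hx).trans ((initList_eq _ _).trans ?_)
    exact congrArg (TM2.Cfg.mk _ _) (Comp.single_inl (Γ₂ := M₂.Γ) (k₂ := M₂.k₀) M₁.k₀ x)
  have e2 : haltList (compTM M₁ M₂ e) (z.map (Equiv.refl (M₂.Γ M₂.k₁)).symm) =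
      ⟨none, (M₁.initialState, none, M₂.initialState),
        Comp.stk (fun _ => []) [] (Comp.single M₂.k₁ z)⟩ := by
    refine (congrArg (haltList (compTM M₁ M₂ e)) hz).trans ((haltList_eq _ _).trans ?_)
    exact congrArg (TM2.Cfg.mk _ _) (Comp.single_some (Γ₁ := M₁.Γ) (k₂ := M₂.k₀) M₂.k₁ z)
  simp only [Option.map_some]
  exact (congrArg (fun c => (flip bind (compTM M₁ M₂ e).step)^[_] (some c)) e1).trans
    (key.trans (congrArg some e2.symm))

/-- number of pushes in a statement -/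
def pushes {K : Type} {Γ : K → Type} {Λ σ : Type} : TM2.Stmt Γ Λ σ → ℕ
  | .push _ _ q => pushes q + 1
  | .peek _ _ q => pushes q
  | .pop _ _ q => pushes q
  | .load _ q => pushes q
  | .branch _ q₁ q₂ => pushes q₁ + pushes q₂
  | .goto _ => 0
  | .halt => 0

lemma stepAux_length {K : Type} [DecidableEq K] {Γ : K → Type} {Λ σ : Type} (k : K)
    (q : TM2.Stmt Γ Λ σ) (v : σ) (S : ∀ k, List (Γ k)) :
    ((TM2.stepAux q v S).stk k).length ≤ (S k).length + pushes q := by
  induction q generalizing v S with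
  | push j f q ih =>
    refine (ih _ _).trans ?_
    by_cases h : k = j
    · subst h; simp [pushes]; omega
    · rw [Function.update_of_ne h]; simp [pushes]
  | peek j f q ih => exact ih _ _
  | pop j f q ih =>
    refine (ih _ _).trans ?_
    by_cases h : k = j
    · subst h; simp [pushes]
    · rw [Function.update_of_ne h]; simp [pushes]
  | load a q ih => exact ih _ _
  | branch f q₁ q₂ ih₁ ih₂ =>
    simp only [TM2.stepAux, pushes]
    cases f v
    · exact (ih₂ _ _).trans (by omega)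
    · exact (ih₁ _ _).trans (by omega)
  | goto f => simp [TM2.stepAux]
  | halt => simp [TM2.stepAux]

/-- The length of the output of a machine is bounded by the length of its input and its
running time. -/
theorem exists_output_bound (M : FinTM2) :
    ∃ C : ℕ, ∀ (x : List (M.Γ M.k₀)) (y : List (M.Γ M.k₁)) (t : ℕ),
      Nonempty (TM2OutputsInTime M x (some y) t) → y.length ≤ x.length + C * t := by
  have := M.ΛFin
  refine ⟨Finset.univ.sup fun l => pushes (M.m l), ?_⟩
  rintro x y t ⟨⟨n, hn⟩, hnt⟩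
  dsimp only at hnt
  simp only [Option.map_some] at hn
  rw [initList_eq, haltList_eq] at hn
  set C := Finset.univ.sup fun l => pushes (M.m l) with hC
  have hstep : ∀ c c' : M.Cfg, M.step c = some c' →
      (TM2.Cfg.stk c' M.k₁).length ≤ (TM2.Cfg.stk c M.k₁).length + C := by
    rintro ⟨l, v, S⟩ c' h
    cases l with
    | none => exact absurd h (by simp [TM2.step])
    | some l =>
      have h' : c' = TM2.stepAux (M.m l) v S := (Option.some.inj h).symm
      rw [h']
      refine (stepAux_length M.k₁ (M.m l) v S).trans ?_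
      exact Nat.add_le_add_left (Finset.le_sup (f := fun l => pushes (M.m l)) (Finset.mem_univ l)) _
  have hrun : ∀ (n : ℕ) (c c' : M.Cfg), (flip bind M.step)^[n] (some c) = some c' →
      (TM2.Cfg.stk c' M.k₁).length ≤ (TM2.Cfg.stk c M.k₁).length + C * n := by
    intro n
    induction n with
    | zero =>
      intro c c' h
      have : c = c' := by simpa using h
      subst this; omega
    | succ n ih =>
      intro c c' h
      rw [iter_succ] at h
      cases hc : M.step c with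
      | none => rw [hc, iter_none] at h; exact absurd h (by simp)
      | some c1 =>
        rw [hc] at h
        have h1 := ih c1 c' h
        have h2 := hstep c c1 hc
        rw [Nat.mul_succ]
        omega
  have h1 := hrun n _ _ hn
  have h2 : (Comp.single M.k₁ y M.k₁) = y := Comp.single_self _ _
  have h3 : (Comp.single M.k₀ x M.k₁).length ≤ x.length := by
    by_cases h : M.k₁ = M.k₀
    · have : ∀ k, k = M.k₀ → (Comp.single M.k₀ x k).length ≤ x.length := by
        rintro k rfl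
        rw [Comp.single_self]
      exact this _ h
    · have : Comp.single M.k₀ x M.k₁ = [] := Function.update_of_ne h _ _
      rw [this]; simp
  have h4 : C * n ≤ C * t := Nat.mul_le_mul_left _ hnt
  have h5 : (Comp.single M.k₁ y M.k₁).length ≤ (Comp.single M.k₀ x M.k₁).length + C * n := h1
  rw [h2] at h5
  omega

lemma polyEval_mono (P : Polynomial ℕ) {m n : ℕ} (h : m ≤ n) : P.eval m ≤ P.eval n := by
  rw [Polynomial.eval_eq_sum_range, Polynomial.eval_eq_sum_range]
  gcongr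

/-- Composition of polynomial-time computable functions, where the second machine needs to be
correct and fast only on the values of the first function. -/
theorem comp_of_range {α β γ αΓ βΓ γΓ : Type} {eα : α → List αΓ} {eβ : β → List βΓ}
    {eγ : γ → List γΓ} {f : α → β} {g : β → γ} (h₁ : TM2ComputableInPolyTime eα eβ f)
    (A : TM2ComputableAux βΓ γΓ) (P : Polynomial ℕ)
    (h₂ : ∀ a, Nonempty (TM2OutputsInTime A.tm ((eβ (f a)).map A.inputAlphabet.symm)
      (some ((eγ (g (f a))).map A.outputAlphabet.symm)) (P.eval (eβ (f a)).length))) :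
    Nonempty (TM2ComputableInPolyTime eα eγ (g ∘ f)) := by
  obtain ⟨M, i, o, c, hM⟩ := exists_comp h₁.tm A.tm (h₁.outputAlphabet.trans A.inputAlphabet.symm)
  obtain ⟨C, hC⟩ := exists_output_bound h₁.tm
  let Q : Polynomial ℕ := Polynomial.X + Polynomial.C C * h₁.time
  suffices H : ∀ a, Nonempty (TM2OutputsInTime M
      (List.map (i.trans h₁.inputAlphabet).invFun (eα a))
      (some ((List.map (o.trans A.outputAlphabet).invFun) (eγ ((g ∘ f) a))))
      ((Polynomial.C c * (h₁.time + P.comp Q + Q + 1)).eval (eα a).length)) from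
    ⟨⟨⟨M, i.trans h₁.inputAlphabet, o.trans A.outputAlphabet⟩,
      Polynomial.C c * (h₁.time + P.comp Q + Q + 1), fun a => (H a).some⟩⟩
  intro a
  have g1 : Nonempty (TM2OutputsInTime h₁.tm ((eα a).map h₁.inputAlphabet.symm)
      (some ((eβ (f a)).map h₁.outputAlphabet.symm)) (h₁.time.eval (eα a).length)) :=
    ⟨h₁.outputsFun a⟩
  have g2 := h₂ a
  have hlen : (eβ (f a)).length ≤ Q.eval (eα a).length := by
    have := hC _ _ _ g1
    simpa [Q] using this
  have e1 : ((eβ (f a)).map h₁.outputAlphabet.symm).map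
      (h₁.outputAlphabet.trans A.inputAlphabet.symm) = (eβ (f a)).map A.inputAlphabet.symm := by
    rw [List.map_map]
    congr 1
    funext b
    simp
  have g3 := hM _ _ ((eγ (g (f a))).map A.outputAlphabet.symm) _ _ g1 (by rw [e1]; exact g2)
  have hi : ((eα a).map h₁.inputAlphabet.symm).map i.symm =
      (eα a).map (i.trans h₁.inputAlphabet).invFun := by
    rw [List.map_map]; rfl
  have ho : ((eγ (g (f a))).map A.outputAlphabet.symm).map o.symm =
      (eγ ((g ∘ f) a)).map (o.trans A.outputAlphabet).invFun := by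
    rw [List.map_map]; rfl
  rw [hi, ho] at g3
  obtain ⟨w⟩ := g3
  refine ⟨w.toEvalsTo, w.steps_le_m.trans ?_⟩
  simp only [Polynomial.eval_mul, Polynomial.eval_C, Polynomial.eval_add, Polynomial.eval_comp,
    Polynomial.eval_one, List.length_map]
  have := polyEval_mono P hlen
  gcongr

/-- Composition of polynomial-time computable functions. -/
theorem comp {α β γ αΓ βΓ γΓ : Type} {eα : α → List αΓ} {eβ : β → List βΓ}
    {eγ : γ → List γΓ} {f : α → β} {g : β → γ} (h₁ : Nonempty (TM2ComputableInPolyTime eα eβ f))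
    (h₂ : Nonempty (TM2ComputableInPolyTime eβ eγ g)) :
    Nonempty (TM2ComputableInPolyTime eα eγ (g ∘ f)) := by
  obtain ⟨h₁⟩ := h₁
  obtain ⟨h₂⟩ := h₂
  exact comp_of_range h₁ h₂.toTM2ComputableAux h₂.time (fun a => ⟨h₂.outputsFun (f a)⟩)

end Pool.Agent.H78.NP
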