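import Pool.Agent.H78.NP.MaxCut
import Pool.Agent.H78.NP.Comp

/-!
# Consequences of fast algorithms for NP-hard problems
-/

set_option autoImplicit false

namespace Pool.Agent.H78.NP

open Turing Function Computability Pool.Agent.H79.Cx

/-- NP-hardness of the problem `Q` restricted to the instances satisfying `G`, the instance `a`
being written as the word `ea a`. -/
def NPHardOn {α Γ : Type} (ea : α → List Γ) (G Q : α → Prop) : Prop :=
  ∀ L : Set (List Bool), InNP L → ∃ f : List Bool → α,
    Nonempty (TM2ComputableInPolyTime (id : List Bool → List Bool) ea f) ∧ (∀ x, G (f x)) ∧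
      ∀ x, x ∈ L ↔ Q (f x)

theorem NPHardOn.npHard {α Γ : Type} {ea : α → List Γ} {G Q : α → Prop}
    (h : NPHardOn ea G Q) : NPHard ea Q := by
  intro L hL
  obtain ⟨f, hf, -, hfx⟩ := h L hL
  exact ⟨f, hf, hfx⟩

theorem NPHP.npHardOn {α : Type} [Enc α] {G Q : α → Prop} (h : NPHP G Q) :
    NPHardOn cd G Q := by
  intro L hL
  obtain ⟨f, hf, hG, hfx⟩ := h L hL
  exact ⟨f, toTM2_word hf, hG, hfx⟩

/-- Version for instances in a type `β` represented by encoded objects. -/
theorem NPHP.npHardOn_rep {α β γ : Type} [Enc α] [Enc γ] {G Q : α → Prop} {G' Q' : β → Prop}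
    (h : NPHP G Q) (g : α → β) (rep : β → γ) (hg : PT fun a => rep (g a))
    (hG : ∀ a, G a → G' (g a)) (hgQ : ∀ a, G a → (Q a ↔ Q' (g a))) :
    NPHardOn (fun b => cd (rep b)) G' Q' := by
  intro L hL
  obtain ⟨f, hf, hG', hfx⟩ := h L hL
  exact ⟨fun x => g (f x), toTM2_word_rep rep (PT.comp (g := fun a => rep (g a)) hg hf), fun x => hG _ (hG' x),
    fun x => (hfx x).trans (hgQ _ (hG' x))⟩

open Classical in
/-- If a problem that is NP-hard on the instances satisfying `G` is decided by a machine that is
correct and runs in polynomial time on the instances satisfying `G`, then every language in NP is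
in P. -/
theorem inP_of_fast {α Γ : Type} {ea : α → List Γ} {G Q : α → Prop} (h : NPHardOn ea G Q)
    (A : TM2ComputableAux Γ Bool) (P : Polynomial ℕ)
    (hA : ∀ a, G a → Nonempty (TM2OutputsInTime A.tm ((ea a).map A.inputAlphabet.symm)
      (some ((encodeBool (decide (Q a))).map A.outputAlphabet.symm)) (P.eval (ea a).length)))
    (L : Set (List Bool)) (hL : InNP L) : InP L := by
  obtain ⟨f, ⟨hf⟩, hG, hfx⟩ := h L hL
  have h1 := comp_of_range (g := fun a => decide (Q a)) (eγ := encodeBool) hf A P
    (fun x => hA (f x) (hG x))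
  have e : (fun x => decide (x ∈ L)) = (fun a => decide (Q a)) ∘ f := by
    funext x
    exact decide_eq_decide.2 (hfx x)
  unfold InP
  rw [e]
  exact h1

open Classical in
/-- If an NP-hard problem is decidable in polynomial time, then every language in NP is in P. -/
theorem inP_of_polyTime {α Γ : Type} {ea : α → List Γ} {Q : α → Prop} (h : NPHard ea Q)
    (hQ : Nonempty (TM2ComputableInPolyTime ea encodeBool (fun a => decide (Q a))))
    (L : Set (List Bool)) (hL : InNP L) : InP L := by
  obtain ⟨f, hf, hfx⟩ := h L hL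
  have h1 := comp hf hQ
  have e : (fun x => decide (x ∈ L)) = (fun a => decide (Q a)) ∘ f := by
    funext x
    exact decide_eq_decide.2 (hfx x)
  unfold InP
  rw [e]
  exact h1

open Classical in
/-- The problem `Q` with the parameter `κ` is fixed-parameter tractable: some machine decides
whether `Q a` in time `f (κ a) * p |a|` for a function `f` and a polynomial `p`. (Computability
of `f` is not even required here.) -/
def FPT {α Γ : Type} (ea : α → List Γ) (κ : α → ℕ) (Q : α → Prop) : Prop :=
  ∃ (A : TM2ComputableAux Γ Bool) (f : ℕ → ℕ) (p : Polynomial ℕ), ∀ a,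
    Nonempty (TM2OutputsInTime A.tm ((ea a).map A.inputAlphabet.symm)
      (some ((encodeBool (decide (Q a))).map A.outputAlphabet.symm))
      (f (κ a) * p.eval (ea a).length))

/-- If a problem is NP-hard on instances whose parameter is bounded by a constant and it is
fixed-parameter tractable, then every language in NP is in P. -/
theorem inP_of_fpt {α Γ : Type} {ea : α → List Γ} {κ : α → ℕ} {Q : α → Prop} {k : ℕ}
    (h : NPHardOn ea (fun a => κ a ≤ k) Q) (hF : FPT ea κ Q)
    (L : Set (List Bool)) (hL : InNP L) : InP L := by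
  obtain ⟨A, f, p, hA⟩ := hF
  refine inP_of_fast h A (Polynomial.C ((Finset.range (k + 1)).sup f) * p) (fun a ha => ?_) L hL
  obtain ⟨⟨⟨m, hm⟩, hmn⟩⟩ := hA a
  refine ⟨⟨⟨m, hm⟩, hmn.trans ?_⟩⟩
  rw [Polynomial.eval_mul, Polynomial.eval_C]
  exact Nat.mul_le_mul_right _ (Finset.le_sup (f := f) (Finset.mem_range.2 (by omega)))

end Pool.Agent.H78.NP
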