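import Mathlib

/-!
# Abstract multi-stack machines and the formula describing their runs
-/

set_option autoImplicit false

namespace Pool.Agent.H78.NP

open Function

/-! ### 3SAT -/

/-- A literal: a variable and a sign. -/
abbrev Lit := ℕ × Bool

/-- A clause with three literals (repetitions are allowed). -/
abbrev Cl := Lit × Lit × Lit

/-- The clause `c` is satisfied by the assignment `v`. -/
def Cl.Sat (v : ℕ → Bool) (c : Cl) : Prop :=
  v c.1.1 = c.1.2 ∨ v c.2.1.1 = c.2.1.2 ∨ v c.2.2.1 = c.2.2.2

/-- The decision problem 3SAT. -/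
def Sat3 (φ : List Cl) : Prop := ∃ v : ℕ → Bool, ∀ c ∈ φ, Cl.Sat v c

/-- Positive unit clause. -/
def cPos (a : ℕ) : Cl := ((a, true), (a, true), (a, true))
/-- Negative unit clause. -/
def cNeg (a : ℕ) : Cl := ((a, false), (a, false), (a, false))
/-- Implication. -/
def cImp (a b c : ℕ) : Cl := ((a, false), (b, false), (c, true))
/-- Disjunction. -/
def cOr (a b c : ℕ) : Cl := ((a, true), (b, true), (c, true))

@[simp] theorem sat_cPos (v : ℕ → Bool) (a : ℕ) : Cl.Sat v (cPos a) ↔ v a = true := by
  simp [Cl.Sat, cPos]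
@[simp] theorem sat_cNeg (v : ℕ → Bool) (a : ℕ) : Cl.Sat v (cNeg a) ↔ ¬ v a = true := by
  simp [Cl.Sat, cNeg]
@[simp] theorem sat_cImp (v : ℕ → Bool) (a b c : ℕ) :
    Cl.Sat v (cImp a b c) ↔ (v a = true → v b = true → v c = true) := by
  simp only [Cl.Sat, cImp]
  cases v a <;> cases v b <;> cases v c <;> simp
@[simp] theorem sat_cOr (v : ℕ → Bool) (a b c : ℕ) :
    Cl.Sat v (cOr a b c) ↔ (v a = true ∨ v b = true ∨ v c = true) := by
  simp [Cl.Sat, cOr]

/-! ### Machines -/

/-- Multi-stack machines with controls in `C`, stacks named by `K` and symbols in `A`. In the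
control `c` the machine looks at the top symbol (or `none`) of the stack `κ c`, changes the control
according to `δ`, and performs the operation `op c` on the stack `κ c`: nothing (`none`), pop
(`some none`), or push `a` (`some (some a)`). -/
structure SM (C K A : Type) where
  /-- the stack concerned -/
  κ : C → K
  /-- the next control -/
  δ : C → Option A → C
  /-- the operation on the stack -/
  op : C → Option (Option A)

namespace SM

variable {C K A : Type} [DecidableEq K] (M : SM C K A)

/-- The effect of an operation on a stack. -/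
def act : Option (Option A) → List A → List A
  | none, l => l
  | some none, l => l.tail
  | some (some a), l => a :: l

/-- One step. -/
def step (s : C × (K → List A)) : C × (K → List A) :=
  (M.δ s.1 (s.2 (M.κ s.1)).head?,
    update s.2 (M.κ s.1) (act (M.op s.1) (s.2 (M.κ s.1))))

/-- The displacements of the cells of the stack `k` in a step from the control `c`. -/
def dd (c : C) (k : K) : ℕ × ℕ :=
  if k = M.κ c then
    match M.op c with
    | none => (0, 0)
    | some none => (1, 0)
    | some (some _) => (0, 1)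
  else (0, 0)

/-- The stacks with `l` on the stack `k₀` and nothing on the others. -/
def ini (k₀ : K) (l : List A) : K → List A := fun k => if k = k₀ then l else []

/-- The input word, over the alphabet `A`. -/
def inp (β : Option Bool → A) (x u : List Bool) : List A :=
  (x.map some ++ none :: u.map some).map β

/-- The configuration after `t` steps. -/
def run (c₀ : C) (k₀ : K) (l : List A) (t : ℕ) : C × (K → List A) :=
  M.step^[t] (c₀, ini k₀ l)

/-- The variables of the formula: controls, and cells with content. -/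
abbrev Sym (C K A : Type) := C ⊕ (K × Option A)

/-- The constraints on the truth values `w t i s` (at time `t`, position `i`, symbol `s`). -/
structure Sats (FC : Finset C) (FA : Finset A) (c₀ : C) (k₀ k₁ : K) (β : Option Bool → A)
    (R : Finset A) (x : List Bool) (P T : ℕ) (w : ℕ → ℕ → Sym C K A → Prop) : Prop where
  a1 : ∀ i < x.length, w 0 i (Sum.inr (k₀, some (β (some (x.getD i false)))))
  a2 : w 0 x.length (Sum.inr (k₀, some (β none)))
  a7 : w 0 0 (Sum.inl c₀)
  a3 : ∀ j < P, w 0 (x.length + 1 + j) (Sum.inr (k₀, some (β (some true)))) ∨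
    w 0 (x.length + 1 + j) (Sum.inr (k₀, some (β (some false)))) ∨
    w 0 (x.length + 1 + j) (Sum.inr (k₀, none))
  a4 : ∀ j < P, w 0 (x.length + 1 + j) (Sum.inr (k₀, none)) →
    w 0 (x.length + 1 + (j + 1)) (Sum.inr (k₀, none))
  a5 : ∀ j < T + 1, w 0 (x.length + 1 + (P + j)) (Sum.inr (k₀, none))
  a6 : ∀ k, k ≠ k₀ → ∀ i < T + 1, w 0 i (Sum.inr (k, none))
  b1 : ∀ t < T, ∀ c ∈ FC, ∀ h : Option A, (∀ a ∈ h, a ∈ FA) → w t 0 (Sum.inl c) →
    w t 0 (Sum.inr (M.κ c, h)) → w (t + 1) 0 (Sum.inl (M.δ c h))
  b2 : ∀ t < T, ∀ c ∈ FC, ∀ a, M.op c = some (some a) → w t 0 (Sum.inl c) →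
    w (t + 1) 0 (Sum.inr (M.κ c, some a))
  b3 : ∀ t < T, ∀ i < T + 1, ∀ c ∈ FC, ∀ k, ∀ h : Option A, (∀ a ∈ h, a ∈ FA) →
    w t 0 (Sum.inl c) → w t (i + (M.dd c k).1) (Sum.inr (k, h)) →
    w (t + 1) (i + (M.dd c k).2) (Sum.inr (k, h))
  c : ∀ a ∈ R, ¬ w T 0 (Sum.inr (k₁, some a))

variable {M} {FC : Finset C} {FA : Finset A} {c₀ : C} {k₀ k₁ : K} {β : Option Bool → A}
  {R : Finset A} {x : List Bool} {P T : ℕ} {w : ℕ → ℕ → Sym C K A → Prop}

theorem getElem?_inp (x u : List Bool) (i : ℕ) :
    (inp β x u)[i]? = if i < x.length then some (β (some (x.getD i false)))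
      else if i = x.length then some (β none)
      else (u[i - x.length - 1]?).map (fun b => β (some b)) := by
  unfold inp
  rw [List.getElem?_map]
  split_ifs with h1 h2
  · rw [List.getElem?_append_left (by simpa using h1), List.getElem?_map,
      List.getElem?_eq_getElem h1]
    simp [List.getD_eq_getElem?_getD, h1]
  · subst h2
    rw [List.getElem?_append_right (by simp)]
    simp
  · rw [List.getElem?_append_right (by simp; omega), List.length_map]
    obtain ⟨j, hj⟩ : ∃ j, i - x.length = j + 1 := ⟨i - x.length - 1, by omega⟩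
    rw [hj, List.getElem?_cons_succ, List.getElem?_map]
    simp only [Option.map_map, Nat.add_sub_cancel]
    rfl

theorem mem_inp (hβ : ∀ b, β b ∈ FA) (x u : List Bool) : ∀ a ∈ inp β x u, a ∈ FA := by
  intro a ha
  unfold inp at ha
  obtain ⟨b, _, rfl⟩ := List.mem_map.1 ha
  exact hβ b

theorem run_succ (M : SM C K A) (c₀ : C) (k₀ : K) (l : List A) (t : ℕ) :
    M.run c₀ k₀ l (t + 1) = M.step (M.run c₀ k₀ l t) := iterate_succ_apply' _ _ _

theorem head?_mem {l : List A} (h : ∀ a ∈ l, a ∈ FA) : ∀ a ∈ l.head?, a ∈ FA := by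
  intro a ha
  cases l with
  | nil => simp at ha
  | cons b l =>
    simp only [List.head?_cons, Option.mem_def, Option.some.injEq] at ha
    subst ha
    exact h b (by simp)

/-- All controls and symbols occurring in a run are in the given finite sets. -/
theorem run_mem (hδ : ∀ c ∈ FC, ∀ h : Option A, (∀ a ∈ h, a ∈ FA) → M.δ c h ∈ FC)
    (hop : ∀ c ∈ FC, ∀ a, M.op c = some (some a) → a ∈ FA) (hc₀ : c₀ ∈ FC) (l : List A)
    (hl : ∀ a ∈ l, a ∈ FA) (t : ℕ) :
    (M.run c₀ k₀ l t).1 ∈ FC ∧ ∀ k, ∀ a ∈ (M.run c₀ k₀ l t).2 k, a ∈ FA := by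
  induction t with
  | zero =>
    refine ⟨hc₀, fun k a ha => ?_⟩
    change a ∈ ini k₀ l k at ha
    unfold ini at ha
    split_ifs at ha
    · exact hl a ha
    · simp at ha
  | succ t ih =>
    rw [run_succ]
    obtain ⟨h1, h2⟩ := ih
    refine ⟨hδ _ h1 _ (head?_mem (h2 _)), fun k a ha => ?_⟩
    unfold step at ha
    dsimp only at ha
    rcases eq_or_ne k (M.κ (M.run c₀ k₀ l t).1) with rfl | hk
    · rw [update_self] at ha
      rcases hopc : M.op (M.run c₀ k₀ l t).1 with _ | _ | b
      · rw [hopc] at ha
        exact h2 _ a ha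
      · rw [hopc] at ha
        exact h2 _ a (List.mem_of_mem_tail ha)
      · rw [hopc] at ha
        rcases List.mem_cons.1 ha with rfl | ha
        · exact hop _ h1 a hopc
        · exact h2 _ a ha
    · rw [update_of_ne hk] at ha
      exact h2 _ a ha

/-- The truth values of a run. -/
def val (M : SM C K A) (c₀ : C) (k₀ : K) (l : List A) (t i : ℕ) : Sym C K A → Prop
  | Sum.inl c => c = (M.run c₀ k₀ l t).1
  | Sum.inr (k, h) => ((M.run c₀ k₀ l t).2 k)[i]? = h

/-- The truth values of an accepting run satisfy the constraints. -/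
theorem sats_val (u : List Bool) (hu : u.length ≤ P)
    (hacc : ∀ a ∈ R, ((M.run c₀ k₀ (inp β x u) T).2 k₁).head? ≠ some a) :
    M.Sats FC FA c₀ k₀ k₁ β R x P T (M.val c₀ k₀ (inp β x u)) where
  a1 := by
    intro i hi
    change (ini k₀ (inp β x u) k₀)[i]? = _
    rw [ini, if_pos rfl, getElem?_inp, if_pos hi]
  a2 := by
    change (ini k₀ (inp β x u) k₀)[x.length]? = _
    rw [ini, if_pos rfl, getElem?_inp, if_neg (lt_irrefl _), if_pos rfl]
  a7 := rfl
  a3 := by
    intro j hj
    change (ini k₀ (inp β x u) k₀)[_]? = _ ∨ (ini k₀ (inp β x u) k₀)[_]? = _ ∨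
      (ini k₀ (inp β x u) k₀)[_]? = _
    rw [ini, if_pos rfl, getElem?_inp, if_neg (by omega), if_neg (by omega)]
    rcases h : u[x.length + 1 + j - x.length - 1]? with _ | _ | _ <;> simp
  a4 := by
    intro j hj
    change (ini k₀ (inp β x u) k₀)[_]? = _ → (ini k₀ (inp β x u) k₀)[_]? = _
    rw [ini, if_pos rfl, getElem?_inp, getElem?_inp, if_neg (by omega), if_neg (by omega),
      if_neg (by omega), if_neg (by omega)]
    simp only [Option.map_eq_none_iff, List.getElem?_eq_none_iff]
    omega
  a5 := by
    intro j hj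
    change (ini k₀ (inp β x u) k₀)[_]? = _
    rw [ini, if_pos rfl, getElem?_inp, if_neg (by omega), if_neg (by omega)]
    simp only [Option.map_eq_none_iff, List.getElem?_eq_none_iff]
    omega
  a6 := by
    intro k hk i _
    change (ini k₀ (inp β x u) k)[_]? = _
    rw [ini, if_neg hk]
    simp
  b1 := by
    rintro t _ c _ h _ rfl h2
    change _[0]? = _ at h2
    change _ = (M.run c₀ k₀ (inp β x u) (t + 1)).1
    rw [run_succ, ← h2, ← List.head?_eq_getElem?]
    rfl
  b2 := by
    rintro t _ c _ a ha rfl
    change ((M.run c₀ k₀ (inp β x u) (t + 1)).2 _)[0]? = _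
    rw [run_succ]
    unfold step
    dsimp only
    rw [update_self, ha]
    rfl
  b3 := by
    rintro t _ i _ c _ k h _ rfl h2
    change ((M.run c₀ k₀ (inp β x u) t).2 k)[_]? = _ at h2
    change ((M.run c₀ k₀ (inp β x u) (t + 1)).2 k)[_]? = _
    rw [run_succ]
    unfold step
    dsimp only
    rcases eq_or_ne k (M.κ (M.run c₀ k₀ (inp β x u) t).1) with hk | hk
    · unfold dd at h2 ⊢
      rw [if_pos hk] at h2 ⊢
      subst hk
      rw [update_self]
      rcases hopc : M.op (M.run c₀ k₀ (inp β x u) t).1 with _ | _ | b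
      · rw [hopc] at h2
        exact h2
      · rw [hopc] at h2
        simpa [act] using h2
      · rw [hopc] at h2
        simpa [act] using h2
    · rw [update_of_ne hk]
      unfold dd at h2 ⊢
      rw [if_neg hk] at h2 ⊢
      exact h2
  c := by
    intro a ha h
    change _[0]? = _ at h
    rw [← List.head?_eq_getElem?] at h
    exact hacc a ha h

/-- If the constraints are satisfied, there is an accepting run. -/
theorem exists_of_sats (hδ : ∀ c ∈ FC, ∀ h : Option A, (∀ a ∈ h, a ∈ FA) → M.δ c h ∈ FC)
    (hop : ∀ c ∈ FC, ∀ a, M.op c = some (some a) → a ∈ FA) (hc₀ : c₀ ∈ FC)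
    (hβ : ∀ b, β b ∈ FA)
    (h : M.Sats FC FA c₀ k₀ k₁ β R x P T w) :
    ∃ u : List Bool, u.length ≤ P ∧
      ∀ a ∈ R, ((M.run c₀ k₀ (inp β x u) T).2 k₁).head? ≠ some a := by
  classical
  have hex : ∃ j, j ≤ P ∧ w 0 (x.length + 1 + j) (Sum.inr (k₀, none)) :=
    ⟨P, le_rfl, h.a5 0 (by omega)⟩
  obtain ⟨m, ⟨hmP, hm⟩, hmin⟩ : ∃ m, (m ≤ P ∧ w 0 (x.length + 1 + m) (Sum.inr (k₀, none))) ∧
      ∀ j < m, ¬ w 0 (x.length + 1 + j) (Sum.inr (k₀, none)) := by
    refine ⟨Nat.find hex, Nat.find_spec hex, fun j hj hw => ?_⟩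
    exact Nat.find_min hex hj ⟨(hj.le.trans (Nat.find_spec hex).1), hw⟩
  set u : List Bool := List.ofFn (fun j : Fin m =>
    decide (w 0 (x.length + 1 + j) (Sum.inr (k₀, some (β (some true)))))) with hu
  have hul : u.length = m := by rw [hu, List.length_ofFn]
  refine ⟨u, by omega, ?_⟩
  have hmem := run_mem (k₀ := k₀) hδ hop hc₀ (inp β x u) (mem_inp hβ x u)
  have hnone : ∀ j, m ≤ j → j ≤ P → w 0 (x.length + 1 + j) (Sum.inr (k₀, none)) := by
    intro j hj
    induction j, hj using Nat.le_induction with
    | base => intro _; exact hm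
    | succ j hj ih => intro hjP; exact h.a4 j (by omega) (ih (by omega))
  have hnone' : ∀ j, m ≤ j → j ≤ P + T → w 0 (x.length + 1 + j) (Sum.inr (k₀, none)) := by
    intro j hj hjT
    rcases le_or_gt j P with h1 | h1
    · exact hnone j hj h1
    · have := h.a5 (j - P) (by omega)
      rwa [show P + (j - P) = j by omega] at this
  have key : ∀ t ≤ T, w t 0 (Sum.inl (M.run c₀ k₀ (inp β x u) t).1) ∧
      ∀ k i, i + t ≤ T → w t i (Sum.inr (k, ((M.run c₀ k₀ (inp β x u) t).2 k)[i]?)) := by
    intro t
    induction t with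
    | zero =>
      intro _
      refine ⟨h.a7, fun k i hi => ?_⟩
      change w 0 i (Sum.inr (k, (ini k₀ (inp β x u) k)[i]?))
      unfold ini
      split_ifs with hk
      · subst hk
        rw [getElem?_inp]
        split_ifs with h1 h2
        · exact h.a1 i h1
        · subst h2
          exact h.a2
        · obtain ⟨j, rfl⟩ : ∃ j, i = x.length + 1 + j := ⟨i - x.length - 1, by omega⟩
          rw [show x.length + 1 + j - x.length - 1 = j by omega]
          rcases lt_or_ge j m with hj | hj
          · rw [hu, List.getElem?_ofFn, dif_pos hj]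
            by_cases hw : w 0 (x.length + 1 + j) (Sum.inr (k, some (β (some true))))
            · rw [decide_eq_true hw]
              exact hw
            · rw [decide_eq_false hw]
              rcases h.a3 j (by omega) with h3 | h3 | h3
              · exact absurd h3 hw
              · exact h3
              · exact absurd h3 (hmin j hj)
          · rw [List.getElem?_eq_none (by omega)]
            exact hnone' j hj (by omega)
      · rw [List.getElem?_nil]
        exact h.a6 k hk i (by omega)
    | succ t ih =>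
      intro ht
      obtain ⟨ih1, ih2⟩ := ih (by omega)
      obtain ⟨m1, m2⟩ := hmem t
      rw [run_succ]
      have hcell : ∀ k i, ∀ a ∈ ((M.run c₀ k₀ (inp β x u) t).2 k)[i]?, a ∈ FA :=
        fun k i a ha => m2 k a (List.mem_of_getElem? ha)
      refine ⟨?_, fun k i hi => ?_⟩
      · refine h.b1 t (by omega) _ m1 _ (head?_mem (m2 _)) ih1 ?_
        rw [List.head?_eq_getElem?]
        exact ih2 _ 0 (by omega)
      · unfold step
        dsimp only
        rcases eq_or_ne k (M.κ (M.run c₀ k₀ (inp β x u) t).1) with hk | hk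
        · have h3 := h.b3 t (by omega)
          have e0 : update (M.run c₀ k₀ (inp β x u) t).2 (M.κ (M.run c₀ k₀ (inp β x u) t).1)
              (act (M.op (M.run c₀ k₀ (inp β x u) t).1)
              ((M.run c₀ k₀ (inp β x u) t).2 (M.κ (M.run c₀ k₀ (inp β x u) t).1))) k =
              act (M.op (M.run c₀ k₀ (inp β x u) t).1) ((M.run c₀ k₀ (inp β x u) t).2 k) := by
            rw [← hk, update_self]
          rw [e0]
          rcases hopc : M.op (M.run c₀ k₀ (inp β x u) t).1 with _ | _ | b
          · have h4 := h3 i (by omega) _ m1 k _ (hcell k i) ih1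
            unfold dd at h4
            rw [if_pos hk, hopc] at h4
            exact h4 (ih2 _ i (by omega))
          · have h4 := h3 i (by omega) _ m1 k _ (hcell k (i + 1)) ih1
            unfold dd at h4
            rw [if_pos hk, hopc] at h4
            have h5 := h4 (ih2 _ (i + 1) (by omega))
            simpa [act] using h5
          · cases i with
            | zero =>
              have h5 := h.b2 t (by omega) _ m1 b hopc ih1
              rw [← hk] at h5
              exact h5
            | succ i =>
              have h4 := h3 i (by omega) _ m1 k _ (hcell k i) ih1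
              unfold dd at h4
              rw [if_pos hk, hopc] at h4
              have h5 := h4 (ih2 _ i (by omega))
              simpa [act] using h5
        · rw [update_of_ne hk]
          have h4 := h.b3 t (by omega) i (by omega) _ m1 k _ (hcell k i) ih1
          unfold dd at h4
          rw [if_neg hk] at h4
          exact h4 (ih2 k i (by omega))
  intro a ha hcon
  have h1 := (key T le_rfl).2 k₁ 0 (by omega)
  rw [← List.head?_eq_getElem?, hcon] at h1
  exact h.c a ha h1

end SM

end Pool.Agent.H78.NP
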