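import Mathlib

/-!
# Complexity classes: P, NP, polynomial-time many-one reductions, NP-hardness

All notions are stated with Mathlib's `TM2ComputableInPolyTime` (multi-stack Turing machines with
a polynomial time bound).
-/

set_option autoImplicit false

namespace Pool.Agent.H78.NP

open Turing Computability

/-- The pair `(x, u)` of words is written as the word `x`, a separator, the word `u`. -/
def pairEnc (p : List Bool × List Bool) : List (Option Bool) :=
  p.1.map some ++ none :: p.2.map some

/-- A language `L` is in NP if there are a polynomial `p` and a polynomial-time computable
verifier `V` such that `x ∈ L` iff `V (x, u) = true` for some `u` with `|u| ≤ p(|x|)`. -/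
def InNP (L : Set (List Bool)) : Prop :=
  ∃ (p : Polynomial ℕ) (V : List Bool × List Bool → Bool),
    Nonempty (TM2ComputableInPolyTime pairEnc encodeBool V) ∧
    ∀ x, x ∈ L ↔ ∃ u : List Bool, u.length ≤ p.eval x.length ∧ V (x, u) = true

open Classical in
/-- A language `L` is in P if its characteristic function is computable in polynomial time. -/
def InP (L : Set (List Bool)) : Prop :=
  Nonempty (TM2ComputableInPolyTime (id : List Bool → List Bool) encodeBool
    (fun x => decide (x ∈ L)))

/-- Polynomial-time many-one reducibility of the language `L` to the decision problem `Q` with
instances in `α`, the instance `a` being written as the word `ea a`. -/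
def Reduces (L : Set (List Bool)) {α Γ : Type} (ea : α → List Γ) (Q : α → Prop) : Prop :=
  ∃ f : List Bool → α, Nonempty (TM2ComputableInPolyTime (id : List Bool → List Bool) ea f) ∧
    ∀ x, x ∈ L ↔ Q (f x)

/-- The decision problem `Q`, whose instances `a` are written as the words `ea a`, is NP-hard
(under polynomial-time many-one reductions). -/
def NPHard {α Γ : Type} (ea : α → List Γ) (Q : α → Prop) : Prop :=
  ∀ L : Set (List Bool), InNP L → Reduces L ea Q

end Pool.Agent.H78.NP
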