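import Pool.Agent.H78.NP.MaxCut

/-!
# Graph `k`-colouring is NP-hard for every fixed `k ≥ 3`
-/

set_option autoImplicit false

namespace Pool.Agent.H78.NP

open Turing Function Computability Pool.Agent.H79.Cx

/-- The graph with vertices `0, ..., m - 1` and the given edges has a proper `k`-colouring. -/
def Colk (k : ℕ) (I : ℕ × List (ℕ × ℕ)) : Prop :=
  ∃ c : ℕ → Fin k, ∀ e ∈ I.2, c e.1 ≠ c e.2

/-- The edges join different vertices below `m`. -/
def ColGood (I : ℕ × List (ℕ × ℕ)) : Prop := ∀ e ∈ I.2, e.1 < I.1 ∧ e.2 < I.1 ∧ e.1 ≠ e.2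

/-- The vertex of a literal. -/
def ln (K : ℕ) (l : Lit) : ℕ := K + 1 + (2 * l.1 + (if l.2 = true then 1 else 0))

/-- The edges of a clause. -/
def colEdges (K b : ℕ) (c : Cl) : List (ℕ × ℕ) :=
  [(b, b + 1), (b + 1, b + 2), (b, b + 2), (ln K c.1, b), (ln K c.2.1, b + 1),
    (ln K c.2.2, b + 2)]

/-- The number of variables. -/
def nvar (φ : List Cl) : ℕ := (φ.map fun c => c.1.1 + c.2.1.1 + c.2.2.1).sum + 1

/-- The reduction from NAE-3SAT to `(K + 3)`-colouring. -/
def toCol (K : ℕ) (φ : List Cl) : ℕ × List (ℕ × ℕ) :=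
  (K + 1 + 2 * nvar φ + 3 * φ.length,
    ((List.range K).flatMap fun u =>
      (List.range (K + 1 + 2 * nvar φ + 3 * φ.length - (u + 1))).map fun v => (u, u + 1 + v)) ++
    (((List.range (2 * nvar φ)).map fun y => (K, K + 1 + y)) ++
    (((List.range (nvar φ)).map fun x => (K + 1 + 2 * x, K + 1 + (2 * x + 1))) ++
    ((List.range φ.length).flatMap fun i =>
      colEdges K (K + 1 + 2 * nvar φ + 3 * i) (φ.getD i dCl)))))

theorem PT_nvar : PT nvar := by
  unfold nvar
  fun_prop

theorem PT_toCol (K : ℕ) : PT (toCol K) := by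
  unfold toCol colEdges ln nvar
  fun_prop

theorem lt_nvar (φ : List Cl) (i : ℕ) (hi : i < φ.length) :
    (φ.getD i dCl).1.1 < nvar φ ∧ (φ.getD i dCl).2.1.1 < nvar φ ∧
      (φ.getD i dCl).2.2.1 < nvar φ := by
  have hc : φ.getD i dCl ∈ φ := by
    rw [List.getD_eq_getElem _ _ hi]
    exact List.getElem_mem hi
  have h1 : (φ.getD i dCl).1.1 + (φ.getD i dCl).2.1.1 + (φ.getD i dCl).2.2.1 ≤
      (φ.map fun c => c.1.1 + c.2.1.1 + c.2.2.1).sum :=
    List.single_le_sum (fun _ _ => Nat.zero_le _) _ (List.mem_map.2 ⟨_, hc, rfl⟩)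
  unfold nvar
  omega

theorem ln_lt {K n : ℕ} {l : Lit} (h : l.1 < n) : ln K l < K + 1 + 2 * n ∧ K < ln K l := by
  unfold ln
  split_ifs <;> omega

theorem forall_toCol (K : ℕ) (φ : List Cl) (p : ℕ × ℕ → Prop) :
    (∀ e ∈ (toCol K φ).2, p e) ↔
      (∀ u < K, ∀ v, u < v → v < K + 1 + 2 * nvar φ + 3 * φ.length → p (u, v)) ∧
      (∀ y < 2 * nvar φ, p (K, K + 1 + y)) ∧
      (∀ x < nvar φ, p (K + 1 + 2 * x, K + 1 + (2 * x + 1))) ∧
      (∀ i < φ.length, ∀ e ∈ colEdges K (K + 1 + 2 * nvar φ + 3 * i) (φ.getD i dCl), p e) := by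
  unfold toCol
  simp only [List.mem_append, or_imp, forall_and, forall_mem_flatMap, List.mem_range,
    List.forall_mem_map]
  refine and_congr ?_ Iff.rfl
  constructor
  · intro h u hu v huv hv
    have := h u hu (v - (u + 1)) (by omega)
    rwa [show u + 1 + (v - (u + 1)) = v by omega] at this
  · intro h u hu v hv
    exact h u hu _ (by omega) (by omega)

theorem good_toCol (K : ℕ) (φ : List Cl) : ColGood (toCol K φ) := by
  unfold ColGood
  rw [forall_toCol]
  have hm : (toCol K φ).1 = K + 1 + 2 * nvar φ + 3 * φ.length := rfl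
  rw [hm]
  refine ⟨fun u hu v h1 h2 => ⟨?_, h2, ?_⟩, fun y hy => ⟨?_, ?_, ?_⟩,
    fun x hx => ⟨?_, ?_, ?_⟩, fun i hi => ?_⟩
  · dsimp only; omega
  · dsimp only; omega
  · dsimp only; omega
  · dsimp only; omega
  · dsimp only; omega
  · dsimp only; omega
  · dsimp only; omega
  · dsimp only; omega
  · obtain ⟨h1, h2, h3⟩ := lt_nvar φ i hi
    have e1 := ln_lt (K := K) h1
    have e2 := ln_lt (K := K) h2
    have e3 := ln_lt (K := K) h3
    simp only [colEdges, List.forall_mem_cons, List.not_mem_nil, false_imp_iff, implies_true,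
      and_true]
    omega

/-- The colours of the three corners. -/
def corner (a b c : Bool) (p : ℕ) : ℕ :=
  if p = 0 then (if a = false then 1 else 2)
  else if p = 1 then (if a = b then 0 else if b = false then 1 else 2)
  else (if a = b then (if c = false then 1 else 2) else 0)

theorem nae3_iff_col (K : ℕ) (φ : List Cl) : Nae3 φ ↔ Colk (K + 3) (toCol K φ) := by
  unfold Colk
  simp only [forall_toCol]
  constructor
  · rintro ⟨v, hv⟩
    rw [forall_getD φ dCl] at hv
    set n := nvar φ with hn
    let cN : ℕ → ℕ := fun x =>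
      if x < K + 1 then x
      else if x < K + 1 + 2 * n then
        (if v ((x - (K + 1)) / 2) = decide ((x - (K + 1)) % 2 = 1) then K + 1 else K + 2)
      else K + corner (litVal v (φ.getD ((x - (K + 1 + 2 * n)) / 3) dCl).1)
        (litVal v (φ.getD ((x - (K + 1 + 2 * n)) / 3) dCl).2.1)
        (litVal v (φ.getD ((x - (K + 1 + 2 * n)) / 3) dCl).2.2)
        ((x - (K + 1 + 2 * n)) % 3)
    have hcor : ∀ a b c p, corner a b c p ≤ 2 := by
      intro a b c p
      unfold corner
      split_ifs <;> omega
    have c1 : ∀ x, x < K + 1 → cN x = x := fun x hx => if_pos hx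
    have c2 : ∀ x y, x < n → y < 2 → cN (K + 1 + (2 * x + y)) =
        if v x = decide (y = 1) then K + 1 else K + 2 := by
      intro x y hx hy
      simp only [cN]
      rw [if_neg (by omega), if_pos (by omega), show (K + 1 + (2 * x + y) - (K + 1)) / 2 = x by
        omega, show (K + 1 + (2 * x + y) - (K + 1)) % 2 = y by omega]
    have c3 : ∀ i p, p < 3 → cN (K + 1 + 2 * n + 3 * i + p) =
        K + corner (litVal v (φ.getD i dCl).1) (litVal v (φ.getD i dCl).2.1)
          (litVal v (φ.getD i dCl).2.2) p := by
      intro i p hp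
      simp only [cN]
      rw [if_neg (by omega), if_neg (by omega),
        show (K + 1 + 2 * n + 3 * i + p - (K + 1 + 2 * n)) / 3 = i by omega,
        show (K + 1 + 2 * n + 3 * i + p - (K + 1 + 2 * n)) % 3 = p by omega]
    have c4 : ∀ l : Lit, l.1 < n → cN (ln K l) = if litVal v l = true then K + 1 else K + 2 := by
      intro l hl
      unfold ln
      rw [c2 _ _ hl (by split_ifs <;> omega)]
      obtain ⟨x, b⟩ := l
      cases b <;> simp [litVal]
    have c5 : ∀ x, cN x < K + 3 := by
      intro x
      simp only [cN]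
      split_ifs
      · omega
      · omega
      · omega
      · have := hcor (litVal v (φ.getD ((x - (K + 1 + 2 * n)) / 3) dCl).1)
          (litVal v (φ.getD ((x - (K + 1 + 2 * n)) / 3) dCl).2.1)
          (litVal v (φ.getD ((x - (K + 1 + 2 * n)) / 3) dCl).2.2)
          ((x - (K + 1 + 2 * n)) % 3)
        omega
    have c6 : ∀ x, K ≤ x → K ≤ cN x := by
      intro x hx
      simp only [cN]
      split_ifs <;> omega
    have ne : ∀ x y, cN x ≠ cN y → (⟨cN x, c5 x⟩ : Fin (K + 3)) ≠ ⟨cN y, c5 y⟩ :=
      fun x y h h' => h (congrArg Fin.val h')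
    refine ⟨fun x => ⟨cN x, c5 x⟩, ?_, ?_, ?_, ?_⟩
    · intro u hu w huw _
      apply ne
      rw [c1 u (by omega)]
      by_cases hw : w < K + 1
      · rw [c1 w hw]
        omega
      · have := c6 w (by omega)
        omega
    · intro y hy
      apply ne
      rw [c1 K (by omega)]
      have e : y = 2 * (y / 2) + y % 2 := by omega
      rw [e, c2 _ _ (by omega) (by omega)]
      split_ifs <;> omega
    · intro x hx
      apply ne
      have e := c2 x 0 hx (by omega)
      have e' : K + 1 + (2 * x + 0) = K + 1 + 2 * x := by omega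
      rw [e'] at e
      rw [e, c2 x 1 hx (by omega)]
      cases v x <;> simp
    · intro i hi
      obtain ⟨h1, h2, h3⟩ := lt_nvar φ i hi
      have h := hv i hi
      have d0 := c3 i 0 (by omega)
      rw [Nat.add_zero] at d0
      have d1 := c3 i 1 (by omega)
      have d2 := c3 i 2 (by omega)
      have l0 := c4 _ h1
      have l1 := c4 _ h2
      have l2 := c4 _ h3
      simp only [Cl.Nae] at h
      revert h d0 d1 d2 l0 l1 l2
      generalize litVal v (φ.getD i dCl).1 = a
      generalize litVal v (φ.getD i dCl).2.1 = b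
      generalize litVal v (φ.getD i dCl).2.2 = c
      intro h d0 d1 d2 l0 l1 l2
      simp only [colEdges, List.forall_mem_cons, List.not_mem_nil, false_imp_iff, implies_true,
        and_true]
      refine ⟨ne _ _ ?_, ne _ _ ?_, ne _ _ ?_, ne _ _ ?_, ne _ _ ?_, ne _ _ ?_⟩ <;>
        simp only [d0, d1, d2, l0, l1, l2] <;>
        cases a <;> cases b <;> cases c <;> simp [corner] at h ⊢
  · rintro ⟨c, hA, hB, hC, hD⟩
    set n := nvar φ with hn
    have hn1 : 0 < n := by rw [hn]; unfold nvar; omega
    -- the colours of the universal vertices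
    let A : Finset (Fin (K + 3)) := (Finset.range K).image c
    have hA1 : A.card = K := by
      rw [Finset.card_image_of_injOn, Finset.card_range]
      intro u hu w hw e
      rw [Finset.mem_coe, Finset.mem_range] at hu hw
      rcases lt_trichotomy u w with h | h | h
      · exact absurd e (hA u hu w h (by omega))
      · exact h
      · exact absurd e.symm (hA w hw u h (by omega))
    have hA2 : ∀ x, K ≤ x → x < K + 1 + 2 * n + 3 * φ.length → c x ∉ A := by
      intro x hx hx' hmem
      obtain ⟨u, hu, e⟩ := Finset.mem_image.1 hmem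
      rw [Finset.mem_range] at hu
      exact hA u hu x (by omega) hx' e
    have hT : c K ≠ c (K + 1 + 1) := hB 1 (by omega)
    have hF : c K ≠ c (K + 1) := hB 0 (by omega)
    have hTF : c (K + 1) ≠ c (K + 1 + 1) := hC 0 hn1
    have hin : ∀ x, K ≤ x → x < K + 1 + 2 * n + 3 * φ.length → c x = c K ∨
        c x = c (K + 1) ∨ c x = c (K + 1 + 1) := by
      intro x hx hx'
      by_contra hcon
      push Not at hcon
      obtain ⟨n1, n2, n3⟩ := hcon
      have hc : (insert (c x) (insert (c K) (insert (c (K + 1))
          (insert (c (K + 1 + 1)) A)))).card = K + 4 := by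
        rw [Finset.card_insert_of_notMem, Finset.card_insert_of_notMem,
          Finset.card_insert_of_notMem, Finset.card_insert_of_notMem, hA1]
        · exact hA2 _ (by omega) (by omega)
        · simp only [Finset.mem_insert, not_or]
          exact ⟨hTF, hA2 _ (by omega) (by omega)⟩
        · simp only [Finset.mem_insert, not_or]
          exact ⟨hF, hT, hA2 _ (by omega) (by omega)⟩
        · simp only [Finset.mem_insert, not_or]
          exact ⟨n1, n2, n3, hA2 _ hx hx'⟩
      have hle := Finset.card_le_univ (insert (c x) (insert (c K) (insert (c (K + 1))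
          (insert (c (K + 1 + 1)) A))))
      rw [hc, Fintype.card_fin] at hle
      omega
    -- the assignment: `x` is true iff its positive literal has the colour of `K + 2`
    refine ⟨fun x => decide (c (K + 1 + (2 * x + 1)) = c (K + 1 + 1)), ?_⟩
    rw [forall_getD φ dCl]
    intro i hi
    obtain ⟨h1, h2, h3⟩ := lt_nvar φ i hi
    have hlit : ∀ l : Lit, l.1 < n →
        (litVal (fun x => decide (c (K + 1 + (2 * x + 1)) = c (K + 1 + 1))) l = true →
          c (ln K l) = c (K + 1 + 1)) ∧
        (litVal (fun x => decide (c (K + 1 + (2 * x + 1)) = c (K + 1 + 1))) l = false →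
          c (ln K l) = c (K + 1)) := by
      rintro ⟨x, b⟩ hx
      dsimp only at hx
      have g1 := hB (2 * x) (by omega)
      have g2 := hB (2 * x + 1) (by omega)
      have g3 := hC x hx
      have g4 := hin (K + 1 + 2 * x) (by omega) (by omega)
      have g5 := hin (K + 1 + (2 * x + 1)) (by omega) (by omega)
      have g4' : c (K + 1 + 2 * x) = c (K + 1) ∨ c (K + 1 + 2 * x) = c (K + 1 + 1) :=
        g4.resolve_left (Ne.symm g1)
      have g5' : c (K + 1 + (2 * x + 1)) = c (K + 1) ∨ c (K + 1 + (2 * x + 1)) = c (K + 1 + 1) :=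
        g5.resolve_left (Ne.symm g2)
      cases b
      · have e : ln K (x, false) = K + 1 + 2 * x := by simp [ln]
        rw [e]
        simp only [litVal, beq_false, Bool.not_eq_true', decide_eq_false_iff_not,
          Bool.not_eq_false', decide_eq_true_eq]
        constructor
        · intro hne
          rcases g4' with g | g
          · exact absurd (g.trans (g5'.resolve_right hne).symm) g3
          · exact g
        · intro heq
          rcases g4' with g | g
          · exact g
          · exact absurd (g.trans heq.symm) g3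
      · have e : ln K (x, true) = K + 1 + (2 * x + 1) := by simp [ln]
        rw [e]
        simp only [litVal, beq_true, decide_eq_true_eq, decide_eq_false_iff_not]
        exact ⟨fun h => h, fun h => g5'.resolve_right h⟩
    have hE := hD i hi
    simp only [colEdges, List.forall_mem_cons, List.not_mem_nil, false_imp_iff, implies_true,
      and_true] at hE
    obtain ⟨k1, k2, k3, k4, k5, k6⟩ := hE
    have j0 := hin (K + 1 + 2 * n + 3 * i) (by omega) (by omega)
    have j1 := hin (K + 1 + 2 * n + 3 * i + 1) (by omega) (by omega)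
    have j2 := hin (K + 1 + 2 * n + 3 * i + 2) (by omega) (by omega)
    have m0 := hlit _ h1
    have m1 := hlit _ h2
    have m2 := hlit _ h3
    rintro ⟨a1, a2⟩
    rcases Bool.eq_false_or_eq_true (litVal (fun x => decide (c (K + 1 + (2 * x + 1)) =
      c (K + 1 + 1))) (φ.getD i dCl).2.1) with hb | hb
    · rw [m0.1 (a1.trans hb)] at k4
      rw [m1.1 hb] at k5
      rw [m2.1 (a2.symm.trans hb)] at k6
      rcases j0 with j0 | j0 | j0
      · rcases j1 with j1 | j1 | j1
        · exact k1 (j0.trans j1.symm)
        · rcases j2 with j2 | j2 | j2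
          · exact k3 (j0.trans j2.symm)
          · exact k2 (j1.trans j2.symm)
          · exact k6 j2.symm
        · exact k5 j1.symm
      · rcases j1 with j1 | j1 | j1
        · rcases j2 with j2 | j2 | j2
          · exact k2 (j1.trans j2.symm)
          · exact k3 (j0.trans j2.symm)
          · exact k6 j2.symm
        · exact k1 (j0.trans j1.symm)
        · exact k5 j1.symm
      · exact k4 j0.symm
    · rw [m0.2 (a1.trans hb)] at k4
      rw [m1.2 hb] at k5
      rw [m2.2 (a2.symm.trans hb)] at k6
      rcases j0 with j0 | j0 | j0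
      · rcases j1 with j1 | j1 | j1
        · exact k1 (j0.trans j1.symm)
        · exact k5 j1.symm
        · rcases j2 with j2 | j2 | j2
          · exact k3 (j0.trans j2.symm)
          · exact k6 j2.symm
          · exact k2 (j1.trans j2.symm)
      · exact k4 j0.symm
      · rcases j1 with j1 | j1 | j1
        · rcases j2 with j2 | j2 | j2
          · exact k2 (j1.trans j2.symm)
          · exact k6 j2.symm
          · exact k3 (j0.trans j2.symm)
        · exact k5 j1.symm
        · exact k1 (j0.trans j1.symm)

/-- Graph `k`-colouring is NP-hard for every `k ≥ 3`. -/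
theorem nphp_colk (k : ℕ) (hk : 3 ≤ k) : NPHP ColGood (Colk k) := by
  obtain ⟨K, rfl⟩ : ∃ K, k = K + 3 := ⟨k - 3, by omega⟩
  exact nph_nae3.nphp.of_reduction (toCol K) (PT_toCol K) (fun φ _ => good_toCol K φ)
    (fun φ _ => nae3_iff_col K φ)

end Pool.Agent.H78.NP
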