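import Pool.Agent.H78.NP.SM
import Pool.Agent.H79.PT.Loop

/-!
# The formula of a multi-stack machine
-/

set_option autoImplicit false

namespace Pool.Agent.H78.NP

open Function Pool.Agent.H79.Cx

/-- The finite data of a machine, coded by natural numbers. -/
structure Tmpl where
  /-- number of codes -/
  W : ℕ
  /-- the initial control -/
  s0 : ℕ
  /-- the input symbol `true` -/
  ct : ℕ
  /-- the input symbol `false` -/
  cf : ℕ
  /-- the separator -/
  cs : ℕ
  /-- blank on the input stack -/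
  cn : ℕ
  /-- blanks on the other stacks -/
  A6 : List ℕ
  /-- changes of the control -/
  B1 : List (ℕ × ℕ × ℕ)
  /-- pushed symbols -/
  B2 : List (ℕ × ℕ)
  /-- persistence of the cells -/
  B3 : List (ℕ × ℕ × ℕ × ℕ)
  /-- forbidden symbols at the end -/
  F : List ℕ

/-- The number of the variable for time `t`, position `i`, symbol `s`. -/
def ix (I W t i s : ℕ) : ℕ := (t * I + i) * W + s

/-- Width of the rows. -/
def wid (x : List Bool) (P T : ℕ) : ℕ := x.length + P + T + 5

/-- The formula. -/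
def form (D : Tmpl) (x : List Bool) (P T : ℕ) : List Cl :=
  (List.range x.length).map (fun i => cPos (ix (wid x P T) D.W 0 i
      (if x.getD i false = true then D.ct else D.cf))) ++
  ([cPos (ix (wid x P T) D.W 0 x.length D.cs), cPos (ix (wid x P T) D.W 0 0 D.s0)] ++
  ((List.range P).map (fun j => cOr (ix (wid x P T) D.W 0 (x.length + 1 + j) D.ct)
      (ix (wid x P T) D.W 0 (x.length + 1 + j) D.cf)
      (ix (wid x P T) D.W 0 (x.length + 1 + j) D.cn)) ++
  ((List.range P).map (fun j => cImp (ix (wid x P T) D.W 0 (x.length + 1 + j) D.cn)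
      (ix (wid x P T) D.W 0 (x.length + 1 + j) D.cn)
      (ix (wid x P T) D.W 0 (x.length + 1 + (j + 1)) D.cn)) ++
  ((List.range (T + 1)).map
    (fun j => cPos (ix (wid x P T) D.W 0 (x.length + 1 + (P + j)) D.cn)) ++
  ((List.range (T + 1)).flatMap
    (fun i => D.A6.map fun s => cPos (ix (wid x P T) D.W 0 i s)) ++
  ((List.range T).flatMap (fun t => D.B1.map fun p => cImp (ix (wid x P T) D.W t 0 p.1)
      (ix (wid x P T) D.W t 0 p.2.1) (ix (wid x P T) D.W (t + 1) 0 p.2.2)) ++
  ((List.range T).flatMap (fun t => D.B2.map fun p => cImp (ix (wid x P T) D.W t 0 p.1)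
      (ix (wid x P T) D.W t 0 p.1) (ix (wid x P T) D.W (t + 1) 0 p.2)) ++
  ((List.range T).flatMap (fun t => (List.range (T + 1)).flatMap fun i => D.B3.map fun p =>
      cImp (ix (wid x P T) D.W t 0 p.1)
        (ix (wid x P T) D.W t (i + p.2.2.1) p.2.1)
        (ix (wid x P T) D.W (t + 1) (i + p.2.2.2) p.2.1)) ++
  D.F.map (fun s => cNeg (ix (wid x P T) D.W T 0 s))))))))))

theorem forall_mem_flatMap {α β : Type} (l : List α) (f : α → List β) (p : β → Prop) :
    (∀ c ∈ l.flatMap f, p c) ↔ ∀ a ∈ l, ∀ c ∈ f a, p c := by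
  simp only [List.mem_flatMap]
  constructor
  · intro h a ha c hc
    exact h c ⟨a, ha, hc⟩
  · rintro h c ⟨a, ha, hc⟩
    exact h a ha c hc

theorem forall_mem_map' {α β : Type} (l : List α) (f : α → β) (p : β → Prop) :
    (∀ c ∈ l.map f, p c) ↔ ∀ a ∈ l, p (f a) := by
  simp

theorem imp_imp_same {p q : Prop} : (p → p → q) ↔ (p → q) :=
  ⟨fun h hp => h hp hp, fun h hp _ => h hp⟩

theorem forall_sat_form (D : Tmpl) (x : List Bool) (P T : ℕ) (v : ℕ → Bool) :
    (∀ c ∈ form D x P T, Cl.Sat v c) ↔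
    (∀ i < x.length, v (ix (wid x P T) D.W 0 i
      (if x.getD i false = true then D.ct else D.cf)) = true) ∧
    v (ix (wid x P T) D.W 0 x.length D.cs) = true ∧
    v (ix (wid x P T) D.W 0 0 D.s0) = true ∧
    (∀ j < P, v (ix (wid x P T) D.W 0 (x.length + 1 + j) D.ct) = true ∨
      v (ix (wid x P T) D.W 0 (x.length + 1 + j) D.cf) = true ∨
      v (ix (wid x P T) D.W 0 (x.length + 1 + j) D.cn) = true) ∧
    (∀ j < P, v (ix (wid x P T) D.W 0 (x.length + 1 + j) D.cn) = true →
      v (ix (wid x P T) D.W 0 (x.length + 1 + (j + 1)) D.cn) = true) ∧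
    (∀ j < T + 1, v (ix (wid x P T) D.W 0 (x.length + 1 + (P + j)) D.cn) = true) ∧
    (∀ i < T + 1, ∀ s ∈ D.A6, v (ix (wid x P T) D.W 0 i s) = true) ∧
    (∀ t < T, ∀ p ∈ D.B1, v (ix (wid x P T) D.W t 0 p.1) = true →
      v (ix (wid x P T) D.W t 0 p.2.1) = true →
      v (ix (wid x P T) D.W (t + 1) 0 p.2.2) = true) ∧
    (∀ t < T, ∀ p ∈ D.B2, v (ix (wid x P T) D.W t 0 p.1) = true →
      v (ix (wid x P T) D.W (t + 1) 0 p.2) = true) ∧
    (∀ t < T, ∀ i < T + 1, ∀ p ∈ D.B3, v (ix (wid x P T) D.W t 0 p.1) = true →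
      v (ix (wid x P T) D.W t (i + p.2.2.1) p.2.1) = true →
      v (ix (wid x P T) D.W (t + 1) (i + p.2.2.2) p.2.1) = true) ∧
    ∀ s ∈ D.F, ¬ v (ix (wid x P T) D.W T 0 s) = true := by
  unfold form
  simp only [List.forall_mem_append, forall_mem_flatMap, forall_mem_map', List.mem_range,
    List.forall_mem_cons, sat_cPos, sat_cOr, sat_cImp, sat_cNeg, List.not_mem_nil,
    false_imp_iff, implies_true, and_true, and_assoc, imp_imp_same]

theorem mul_add_inj {W a a' c c' : ℕ} (hc : c < W) (hc' : c' < W)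
    (h : a * W + c = a' * W + c') : a = a' ∧ c = c' := by
  have hW : 0 < W := by omega
  have h1 := congrArg (· / W) h
  have h2 := congrArg (· % W) h
  simp only [Nat.add_comm _ c, Nat.add_comm _ c', Nat.add_mul_div_right _ _ hW,
    Nat.add_mul_mod_self_right, Nat.div_eq_of_lt hc, Nat.div_eq_of_lt hc',
    Nat.mod_eq_of_lt hc, Nat.mod_eq_of_lt hc', Nat.zero_add] at h1 h2
  exact ⟨h1, h2⟩

theorem ix_inj {I W t t' i i' s s' : ℕ} (hi : i < I) (hi' : i' < I) (hs : s < W) (hs' : s' < W)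
    (h : ix I W t i s = ix I W t' i' s') : t = t' ∧ i = i' ∧ s = s' := by
  obtain ⟨h1, h2⟩ := mul_add_inj hs hs' h
  obtain ⟨h3, h4⟩ := mul_add_inj hi hi' h1
  exact ⟨h3, h4, h2⟩

namespace SM

variable {C K A : Type} [DecidableEq K] [Fintype K]

/-- The symbols in use. -/
def Ok (FC : Finset C) (FA : Finset A) : Sym C K A → Prop
  | Sum.inl c => c ∈ FC
  | Sum.inr (_, h) => ∀ a ∈ h, a ∈ FA

omit [Fintype K] in
theorem Sats.congr {M : SM C K A} {FC : Finset C} {FA : Finset A} {c₀ : C} {k₀ k₁ : K}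
    {β : Option Bool → A} {R : Finset A} {x : List Bool} {P T : ℕ}
    {w w' : ℕ → ℕ → Sym C K A → Prop}
    (hδ : ∀ c ∈ FC, ∀ h : Option A, (∀ a ∈ h, a ∈ FA) → M.δ c h ∈ FC)
    (hop : ∀ c ∈ FC, ∀ a, M.op c = some (some a) → a ∈ FA) (hc₀ : c₀ ∈ FC)
    (hβ : ∀ b, β b ∈ FA) (hR : R ⊆ FA)
    (h : M.Sats FC FA c₀ k₀ k₁ β R x P T w)
    (hw : ∀ t i s, i < wid x P T → Ok FC FA s → (w' t i s ↔ w t i s)) :
    M.Sats FC FA c₀ k₀ k₁ β R x P T w' := by
  have okn : ∀ k : K, Ok (C := C) FC FA (Sum.inr (k, none)) := by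
    intro k a ha
    simp at ha
  have oks : ∀ (k : K) (a : A), a ∈ FA → Ok (C := C) FC FA (Sum.inr (k, some a)) := by
    intro k a ha b hb
    simp only [Option.mem_def, Option.some.injEq] at hb
    rwa [← hb]
  have hI : wid x P T = x.length + P + T + 5 := rfl
  have hdd : ∀ c k, (M.dd c k).1 ≤ 1 ∧ (M.dd c k).2 ≤ 1 := by
    intro c k
    unfold dd
    split_ifs
    · rcases M.op c with _ | _ | _ <;> simp
    · simp
  refine ⟨?_, ?_, ?_, ?_, ?_, ?_, ?_, ?_, ?_, ?_, ?_⟩
  · intro i hi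
    rw [hw _ _ _ (by omega) (oks _ _ (hβ _))]
    exact h.a1 i hi
  · rw [hw _ _ _ (by omega) (oks _ _ (hβ _))]
    exact h.a2
  · rw [hw _ _ _ (by omega) (by exact hc₀)]
    exact h.a7
  · intro j hj
    rw [hw _ _ _ (by omega) (oks _ _ (hβ _)), hw _ _ _ (by omega) (oks _ _ (hβ _)),
      hw _ _ _ (by omega) (okn _)]
    exact h.a3 j hj
  · intro j hj
    rw [hw _ _ _ (by omega) (okn _), hw _ _ _ (by omega) (okn _)]
    exact h.a4 j hj
  · intro j hj
    rw [hw _ _ _ (by omega) (okn _)]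
    exact h.a5 j hj
  · intro k hk i hi
    rw [hw _ _ _ (by omega) (okn _)]
    exact h.a6 k hk i hi
  · intro t ht c hc s hs
    rw [hw _ _ _ (by omega) (by exact hc), hw _ _ _ (by omega) (by exact hs),
      hw _ _ _ (by omega) (by exact hδ c hc s hs)]
    exact h.b1 t ht c hc s hs
  · intro t ht c hc a ha
    rw [hw _ _ _ (by omega) (by exact hc), hw _ _ _ (by omega) (oks _ _ (hop c hc a ha))]
    exact h.b2 t ht c hc a ha
  · intro t ht i hi c hc k s hs
    obtain ⟨d1, d2⟩ := hdd c k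
    rw [hw _ _ _ (by omega) (by exact hc), hw _ _ _ (by omega) (by exact hs),
      hw _ _ _ (by omega) (by exact hs)]
    exact h.b3 t ht i hi c hc k s hs
  · intro a ha
    rw [hw _ _ _ (by omega) (oks _ _ (hR ha))]
    exact h.c a ha

/-- The data of a machine. -/
noncomputable def tmpl (M : SM C K A) (FC : Finset C) (FA : Finset A) (c₀ : C) (k₀ k₁ : K)
    (β : Option Bool → A) (R : Finset A) (code : Sym C K A → ℕ) (W : ℕ) : Tmpl where
  W := W
  s0 := code (Sum.inl c₀)
  ct := code (Sum.inr (k₀, some (β (some true))))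
  cf := code (Sum.inr (k₀, some (β (some false))))
  cs := code (Sum.inr (k₀, some (β none)))
  cn := code (Sum.inr (k₀, none))
  A6 := ((Finset.univ : Finset K).filter (· ≠ k₀)).toList.map fun k => code (Sum.inr (k, none))
  B1 := FC.toList.flatMap fun c => (Finset.insertNone FA).toList.map fun h =>
    (code (Sum.inl c), code (Sum.inr (M.κ c, h)), code (Sum.inl (M.δ c h)))
  B2 := FC.toList.flatMap fun c => (match M.op c with
    | some (some a) => [(code (Sum.inl c), code (Sum.inr (M.κ c, some a)))]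
    | _ => [])
  B3 := FC.toList.flatMap fun c => (Finset.univ : Finset K).toList.flatMap fun k =>
    (Finset.insertNone FA).toList.map fun h =>
      (code (Sum.inl c), code (Sum.inr (k, h)), (M.dd c k).1, (M.dd c k).2)
  F := R.toList.map fun a => code (Sum.inr (k₁, some a))

theorem forall_sat_iff (M : SM C K A) (FC : Finset C) (FA : Finset A) (c₀ : C) (k₀ k₁ : K)
    (β : Option Bool → A) (R : Finset A) (code : Sym C K A → ℕ) (W : ℕ) (x : List Bool)
    (P T : ℕ) (v : ℕ → Bool) :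
    (∀ c ∈ form (M.tmpl FC FA c₀ k₀ k₁ β R code W) x P T, Cl.Sat v c) ↔
      M.Sats FC FA c₀ k₀ k₁ β R x P T
        (fun t i s => v (ix (wid x P T) W t i (code s)) = true) := by
  rw [forall_sat_form]
  unfold tmpl
  simp only [forall_mem_flatMap, forall_mem_map', Finset.mem_toList, Finset.mem_filter,
    Finset.mem_univ, true_and, Finset.mem_insertNone]
  constructor
  · rintro ⟨a1, a2, a7, a3, a4, a5, a6, b1, b2, b3, c⟩
    refine ⟨?_, a2, a7, a3, a4, a5, fun k hk i hi => a6 i hi k hk, b1, ?_,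
      fun t ht i hi c hc k h hh => b3 t ht i hi c hc k trivial h hh, c⟩
    · intro i hi
      have := a1 i hi
      cases h : x.getD i false <;> rw [h] at this <;> exact this
    · intro t ht c hc a ha h1
      have := b2 t ht c hc
      rw [ha] at this
      exact this _ (List.mem_singleton_self _) h1
  · intro h
    refine ⟨?_, h.a2, h.a7, h.a3, h.a4, h.a5, fun i hi k hk => h.a6 k hk i hi, h.b1, ?_,
      fun t ht i hi c hc k _ s hs => h.b3 t ht i hi c hc k s hs, h.c⟩
    · intro i hi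
      have := h.a1 i hi
      cases h : x.getD i false <;> rw [h] at this <;> exact this
    · intro t ht c hc p hp h1
      rcases ha : M.op c with _ | _ | a
      · rw [ha] at hp
        simp at hp
      · rw [ha] at hp
        simp at hp
      · rw [ha] at hp
        simp only [List.mem_singleton] at hp
        subst hp
        exact h.b2 t ht c hc a ha h1

/-- The formula is satisfiable iff there is an accepting run. -/
theorem sat3_form_iff (M : SM C K A) (FC : Finset C) (FA : Finset A) (c₀ : C) (k₀ k₁ : K)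
    (β : Option Bool → A) (R : Finset A) (code : Sym C K A → ℕ) (W : ℕ)
    (hδ : ∀ c ∈ FC, ∀ h : Option A, (∀ a ∈ h, a ∈ FA) → M.δ c h ∈ FC)
    (hop : ∀ c ∈ FC, ∀ a, M.op c = some (some a) → a ∈ FA) (hc₀ : c₀ ∈ FC)
    (hβ : ∀ b, β b ∈ FA) (hR : R ⊆ FA)
    (hinj : ∀ s s', Ok FC FA s → Ok FC FA s' → code s = code s' → s = s')
    (hlt : ∀ s, Ok FC FA s → code s < W) (x : List Bool) (P T : ℕ) :
    Sat3 (form (M.tmpl FC FA c₀ k₀ k₁ β R code W) x P T) ↔
      ∃ u : List Bool, u.length ≤ P ∧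
        ∀ a ∈ R, ((M.run c₀ k₀ (inp β x u) T).2 k₁).head? ≠ some a := by
  classical
  constructor
  · rintro ⟨v, hv⟩
    exact exists_of_sats hδ hop hc₀ hβ ((M.forall_sat_iff _ _ _ _ _ _ _ _ _ _ _ _ _).1 hv)
  · rintro ⟨u, hu, hacc⟩
    refine ⟨fun n => decide (∃ t i s, i < wid x P T ∧ Ok FC FA s ∧
      n = ix (wid x P T) W t i (code s) ∧ M.val c₀ k₀ (inp β x u) t i s), ?_⟩
    rw [M.forall_sat_iff]
    refine Sats.congr hδ hop hc₀ hβ hR (sats_val (x := x) u hu hacc) ?_
    intro t i s hi hs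
    rw [decide_eq_true_iff]
    constructor
    · rintro ⟨t', i', s', hi', hs', he, hval⟩
      obtain ⟨rfl, rfl, h3⟩ := ix_inj hi hi' (hlt s hs) (hlt s' hs') he
      rw [hinj s s' hs hs' h3]
      exact hval
    · intro hval
      exact ⟨t, i, s, hi, hs, rfl, hval⟩

/-- There is a code. -/
theorem exists_code (FC : Finset C) (FA : Finset A) : ∃ (code : Sym C K A → ℕ) (W : ℕ),
    (∀ s s', Ok FC FA s → Ok FC FA s' → code s = code s' → s = s') ∧
    (∀ s, Ok FC FA s → code s < W) := by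
  classical
  let F : Finset (Sym C K A) := FC.map ⟨Sum.inl, Sum.inl_injective⟩ ∪
    ((Finset.univ : Finset K) ×ˢ Finset.insertNone FA).map ⟨Sum.inr, Sum.inr_injective⟩
  have hF : ∀ s, Ok FC FA s → s ∈ F := by
    intro s hs
    rcases s with c | ⟨k, h⟩
    · exact Finset.mem_union_left _ (Finset.mem_map.2 ⟨c, hs, rfl⟩)
    · refine Finset.mem_union_right _ (Finset.mem_map.2 ⟨(k, h), ?_, rfl⟩)
      rw [Finset.mem_product, Finset.mem_insertNone]
      exact ⟨Finset.mem_univ _, hs⟩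
  refine ⟨fun s => if h : s ∈ F then (F.equivFin ⟨s, h⟩ : ℕ) else 0, F.card, ?_, ?_⟩
  · intro s s' hs hs' he
    dsimp only at he
    rw [dif_pos (hF s hs), dif_pos (hF s' hs')] at he
    have := F.equivFin.injective (Fin.ext he)
    exact congrArg Subtype.val this
  · intro s hs
    dsimp only
    rw [dif_pos (hF s hs)]
    exact (F.equivFin ⟨s, hF s hs⟩).2

end SM

end Pool.Agent.H78.NP
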