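import Pool.Agent.H78.NP.CookLevin

/-!
# NP-hardness of NAE-3SAT and MAX-CUT
-/

set_option autoImplicit false

namespace Pool.Agent.H78.NP

open Turing Function Computability Pool.Agent.H79.Cx

/-! ### Hardness with a promise -/

/-- NP-hardness of the decision problem `Q` restricted to the instances satisfying `G`. -/
def NPHP {α : Type} [Enc α] (G Q : α → Prop) : Prop :=
  ∀ L : Set (List Bool), InNP L → ∃ f : List Bool → α, PT f ∧ (∀ x, G (f x)) ∧
    ∀ x, x ∈ L ↔ Q (f x)

theorem NPHP.of_reduction {α β : Type} [Enc α] [Enc β] {G Q : α → Prop} {G' Q' : β → Prop}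
    (h : NPHP G Q) (g : α → β) (hg : PT g) (hG : ∀ a, G a → G' (g a))
    (hgQ : ∀ a, G a → (Q a ↔ Q' (g a))) : NPHP G' Q' := by
  intro L hL
  obtain ⟨f, hf, hG', hfx⟩ := h L hL
  exact ⟨fun x => g (f x), PT.comp hg hf, fun x => hG _ (hG' x),
    fun x => (hfx x).trans (hgQ _ (hG' x))⟩

theorem NPHP.nph {α : Type} [Enc α] {G Q : α → Prop} (h : NPHP G Q) : NPH Q := by
  intro L hL
  obtain ⟨f, hf, -, hfx⟩ := h L hL
  exact ⟨f, hf, hfx⟩

theorem NPHP.npHard {α : Type} [Enc α] {G Q : α → Prop} (h : NPHP G Q) : NPHard cd Q :=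
  h.nph.npHard

theorem NPH.nphp {α : Type} [Enc α] {Q : α → Prop} (h : NPH Q) : NPHP (fun _ => True) Q := by
  intro L hL
  obtain ⟨f, hf, hfx⟩ := h L hL
  exact ⟨f, hf, fun _ => trivial, hfx⟩

/-! ### Not-all-equal 3SAT -/

/-- The literal `l` is true. -/
def litVal (v : ℕ → Bool) (l : Lit) : Bool := v l.1 == l.2

/-- The literals of the clause do not all have the same truth value. -/
def Cl.Nae (v : ℕ → Bool) (c : Cl) : Prop :=
  ¬ (litVal v c.1 = litVal v c.2.1 ∧ litVal v c.2.1 = litVal v c.2.2)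

/-- The decision problem NAE-3SAT. -/
def Nae3 (φ : List Cl) : Prop := ∃ v : ℕ → Bool, ∀ c ∈ φ, Cl.Nae v c

theorem sat_iff_litVal (v : ℕ → Bool) (c : Cl) :
    Cl.Sat v c ↔ litVal v c.1 = true ∨ litVal v c.2.1 = true ∨ litVal v c.2.2 = true := by
  simp [Cl.Sat, litVal]

/-- Renaming of the variables. -/
def up (l : Lit) : Lit := (2 * l.1 + 2, l.2)

/-- The two clauses of the clause number `i`. -/
def naeCl (i : ℕ) (c : Cl) : List Cl :=
  [(up c.1, up c.2.1, (2 * i + 1, true)), ((2 * i + 1, false), up c.2.2, (0, true))]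

/-- The default clause. -/
def dCl : Cl := ((0, true), (0, true), (0, true))

/-- The reduction from 3SAT to NAE-3SAT. -/
def toNae (φ : List Cl) : List Cl :=
  (List.range φ.length).flatMap fun i => naeCl i (φ.getD i dCl)

theorem litVal_up (v : ℕ → Bool) (l : Lit) :
    litVal v (up l) = litVal (fun n => v (2 * n + 2)) l := rfl

theorem forall_getD {α : Type} (l : List α) (d : α) (p : α → Prop) :
    (∀ a ∈ l, p a) ↔ ∀ i < l.length, p (l.getD i d) := by
  constructor
  · intro h i hi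
    rw [List.getD_eq_getElem _ _ hi]
    exact h _ (List.getElem_mem hi)
  · intro h a ha
    obtain ⟨i, hi, rfl⟩ := List.mem_iff_getElem.1 ha
    have := h i hi
    rwa [List.getD_eq_getElem _ _ hi] at this

theorem sat3_iff_nae3 (φ : List Cl) : Sat3 φ ↔ Nae3 (toNae φ) := by
  unfold Sat3 Nae3 toNae
  simp only [forall_mem_flatMap, List.mem_range, naeCl, List.forall_mem_cons, List.not_mem_nil,
    false_imp_iff, implies_true, and_true, forall_getD φ dCl, sat_iff_litVal]
  constructor
  · rintro ⟨v, hv⟩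
    refine ⟨fun n => if n = 0 then false else if n % 2 = 0 then v (n / 2 - 1) else
      !(litVal v (φ.getD (n / 2) dCl).1 || litVal v (φ.getD (n / 2) dCl).2.1), fun i hi => ?_⟩
    have h := hv i hi
    have e0 : ∀ l : Lit, litVal (fun n => if n = 0 then false else if n % 2 = 0 then
        v (n / 2 - 1) else !(litVal v (φ.getD (n / 2) dCl).1 ||
        litVal v (φ.getD (n / 2) dCl).2.1)) (up l) = litVal v l := by
      intro l
      simp only [litVal, up]
      rw [if_neg (by omega), if_pos (by omega), show (2 * l.1 + 2) / 2 - 1 = l.1 by omega]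
    simp only [Cl.Nae, e0]
    have e1 : (2 * i + 1) / 2 = i := by omega
    have e2 : (2 * i + 1) % 2 = 1 := by omega
    simp only [litVal, e1, e2] at h ⊢
    revert h
    generalize (v (φ.getD i dCl).1.1 == (φ.getD i dCl).1.2) = a
    generalize (v (φ.getD i dCl).2.1.1 == (φ.getD i dCl).2.1.2) = b
    generalize (v (φ.getD i dCl).2.2.1 == (φ.getD i dCl).2.2.2) = c
    revert a b c
    simp
  · rintro ⟨v, hv⟩
    refine ⟨fun n => (v (2 * n + 2) ^^ v 0), fun i hi => ?_⟩
    have h := hv i hi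
    simp only [Cl.Nae, litVal_up] at h
    have e0 : ∀ l : Lit, litVal (fun n => (v (2 * n + 2) ^^ v 0)) l =
        (litVal (fun n => v (2 * n + 2)) l ^^ v 0) := by
      intro l
      simp only [litVal]
      cases v (2 * l.1 + 2) <;> cases v 0 <;> cases l.2 <;> rfl
    simp only [e0]
    revert h
    have e3 : litVal v (2 * i + 1, true) = v (2 * i + 1) := by simp [litVal]
    have e4 : litVal v (2 * i + 1, false) = !v (2 * i + 1) := by simp [litVal]
    have e5 : litVal v (0, true) = v 0 := by simp [litVal]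
    rw [e3, e4, e5]
    generalize litVal (fun n => v (2 * n + 2)) (φ.getD i dCl).1 = a
    generalize litVal (fun n => v (2 * n + 2)) (φ.getD i dCl).2.1 = b
    generalize litVal (fun n => v (2 * n + 2)) (φ.getD i dCl).2.2 = c
    generalize v (2 * i + 1) = w
    generalize v 0 = z
    revert a b c w z
    decide

theorem PT_toNae : PT toNae := by
  unfold toNae naeCl up
  fun_prop

/-- NAE-3SAT is NP-hard. -/
theorem nph_nae3 : NPH Nae3 := nph_sat3.of_reduction toNae PT_toNae sat3_iff_nae3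

/-! ### MAX-CUT -/

/-- Instances `(n, E, K)`: the edges `E` of a multigraph (loops allowed) on `0, ..., n - 1`, and
a threshold. -/
abbrev Graph := ℕ × List (ℕ × ℕ) × ℕ

/-- The size of the cut `χ`. -/
def cutSize (E : List (ℕ × ℕ)) (χ : ℕ → Bool) : ℕ :=
  (E.filter fun e => χ e.1 != χ e.2).length

/-- The decision problem MAX-CUT: is there a cut with at least `K` edges? -/
def MaxCut (I : Graph) : Prop := ∃ χ : ℕ → Bool, I.2.2 ≤ cutSize I.2.1 χ

/-- All end points of edges are vertices. -/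
def IsGraph (I : Graph) : Prop := ∀ e ∈ I.2.1, e.1 < I.1 ∧ e.2 < I.1

/-- The vertex of a literal. -/
def node (l : Lit) : ℕ := 2 * l.1 + (if l.2 = true then 1 else 0)

/-- The edges of a clause. -/
def cutEdges (c : Cl) : List (ℕ × ℕ) :=
  [(node c.1, node c.2.1), (node c.2.1, node c.2.2), (node c.1, node c.2.2),
    (2 * c.1.1, 2 * c.1.1 + 1), (2 * c.2.1.1, 2 * c.2.1.1 + 1), (2 * c.2.2.1, 2 * c.2.2.1 + 1)]

/-- The reduction from NAE-3SAT to MAX-CUT. -/
def toCut (φ : List Cl) : Graph :=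
  (2 * (φ.map fun c => c.1.1 + c.2.1.1 + c.2.2.1).sum + 2, φ.flatMap cutEdges, 5 * φ.length)

theorem cutSize_append (E F : List (ℕ × ℕ)) (χ : ℕ → Bool) :
    cutSize (E ++ F) χ = cutSize E χ + cutSize F χ := by
  simp [cutSize]

theorem cutSize_flatMap {α : Type} (l : List α) (f : α → List (ℕ × ℕ)) (χ : ℕ → Bool) :
    cutSize (l.flatMap f) χ = (l.map fun a => cutSize (f a) χ).sum := by
  induction l with
  | nil => simp [cutSize]
  | cons a l ih => rw [List.flatMap_cons, cutSize_append, ih, List.map_cons, List.sum_cons]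

theorem cutSize_cutEdges (c : Cl) (χ : ℕ → Bool) :
    cutSize (cutEdges c) χ ≤ 5 ∧
    (cutSize (cutEdges c) χ = 5 ↔ Cl.Nae (fun n => χ (2 * n + 1)) c ∧
      χ (2 * c.1.1) ≠ χ (2 * c.1.1 + 1) ∧ χ (2 * c.2.1.1) ≠ χ (2 * c.2.1.1 + 1) ∧
      χ (2 * c.2.2.1) ≠ χ (2 * c.2.2.1 + 1)) := by
  obtain ⟨⟨a, sa⟩, ⟨b, sb⟩, ⟨c, sc⟩⟩ := c
  have hnode : ∀ l : Lit, χ (node l) = if l.2 = true then χ (2 * l.1 + 1) else χ (2 * l.1) := by
    intro l
    unfold node
    split_ifs <;> rfl
  have hcons : ∀ (e : ℕ × ℕ) (E : List (ℕ × ℕ)), cutSize (e :: E) χ =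
      (χ e.1 ^^ χ e.2).toNat + cutSize E χ := by
    intro e E
    unfold cutSize
    rw [List.filter_cons]
    cases χ e.1 <;> cases χ e.2 <;> simp <;> omega
  have hnil : cutSize [] χ = 0 := rfl
  have hA : ∀ s x y : Bool, x ≠ y → (if s = true then y else x) = (y == s) := by decide
  have ht : ∀ A B C : Bool, (A ^^ B).toNat + ((B ^^ C).toNat + (A ^^ C).toNat) =
      if A = B ∧ B = C then 0 else 2 := by decide
  have hx : ∀ x y : Bool, (x ^^ y).toNat = if x = y then 0 else 1 := by decide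
  simp only [cutEdges, hcons, hnil, hnode, Cl.Nae, litVal]
  generalize χ (2 * a) = a0
  generalize χ (2 * a + 1) = a1
  generalize χ (2 * b) = b0
  generalize χ (2 * b + 1) = b1
  generalize χ (2 * c) = c0
  generalize χ (2 * c + 1) = c1
  have h1 := ht (if sa = true then a1 else a0) (if sb = true then b1 else b0)
    (if sc = true then c1 else c0)
  have h2 : ((if sa = true then a1 else a0) ^^ (if sb = true then b1 else b0)).toNat +
      (((if sb = true then b1 else b0) ^^ (if sc = true then c1 else c0)).toNat +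
      ((if sa = true then a1 else a0) ^^ (if sc = true then c1 else c0)).toNat) ≤ 2 := by
    rw [h1]
    by_cases h : (if sa = true then a1 else a0) = (if sb = true then b1 else b0) ∧
      (if sb = true then b1 else b0) = (if sc = true then c1 else c0)
    · rw [if_pos h]; omega
    · rw [if_neg h]
  have ha1 : (a0 ^^ a1).toNat ≤ 1 := Bool.toNat_le _
  have hb1 : (b0 ^^ b1).toNat ≤ 1 := Bool.toNat_le _
  have hc1 : (c0 ^^ c1).toNat ≤ 1 := Bool.toNat_le _
  by_cases ha : a0 = a1
  · have e : (a0 ^^ a1).toNat = 0 := by rw [hx, if_pos ha]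
    exact ⟨by omega, ⟨fun h => by omega, fun h => absurd ha h.2.1⟩⟩
  · by_cases hb : b0 = b1
    · have e : (b0 ^^ b1).toNat = 0 := by rw [hx, if_pos hb]
      exact ⟨by omega, ⟨fun h => by omega, fun h => absurd hb h.2.2.1⟩⟩
    · by_cases hc : c0 = c1
      · have e : (c0 ^^ c1).toNat = 0 := by rw [hx, if_pos hc]
        exact ⟨by omega, ⟨fun h => by omega, fun h => absurd hc h.2.2.2⟩⟩
      · have ea : (a0 ^^ a1).toNat = 1 := by rw [hx, if_neg ha]
        have eb : (b0 ^^ b1).toNat = 1 := by rw [hx, if_neg hb]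
        have ec : (c0 ^^ c1).toNat = 1 := by rw [hx, if_neg hc]
        rw [hA sa a0 a1 ha, hA sb b0 b1 hb, hA sc c0 c1 hc] at h1 ⊢
        by_cases hN : (a1 == sa) = (b1 == sb) ∧ (b1 == sb) = (c1 == sc)
        · rw [if_pos hN] at h1
          refine ⟨by omega, ⟨fun h => by omega, fun h => absurd hN h.1⟩⟩
        · rw [if_neg hN] at h1
          refine ⟨by omega, ⟨fun h => ⟨hN, ha, hb, hc⟩, fun _ => by omega⟩⟩

theorem sum_eq_iff {α : Type} (l : List α) (f : α → ℕ) (h : ∀ a ∈ l, f a ≤ 5) :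
    5 * l.length ≤ (l.map f).sum ↔ ∀ a ∈ l, f a = 5 := by
  have hle : ∀ l : List α, (∀ a ∈ l, f a ≤ 5) → (l.map f).sum ≤ 5 * l.length := by
    intro l
    induction l with
    | nil => simp
    | cons a l ih =>
      intro h
      have h1 := h a (by simp)
      have h2 := ih fun b hb => h b (by simp [hb])
      simp only [List.map_cons, List.sum_cons, List.length_cons]
      omega
  induction l with
  | nil => simp
  | cons a l ih =>
    have h1 := h a (by simp)
    have h2 := ih fun b hb => h b (by simp [hb])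
    have h3 := hle l fun b hb => h b (by simp [hb])
    simp only [List.map_cons, List.sum_cons, List.length_cons, List.forall_mem_cons, ← h2]
    omega

theorem nae3_iff_maxCut (φ : List Cl) : Nae3 φ ↔ MaxCut (toCut φ) := by
  unfold MaxCut toCut
  simp only [cutSize_flatMap]
  constructor
  · rintro ⟨v, hv⟩
    refine ⟨fun n => if n % 2 = 1 then v (n / 2) else !(v (n / 2)), ?_⟩
    rw [sum_eq_iff _ _ fun c _ => (cutSize_cutEdges c _).1]
    intro c hc
    rw [(cutSize_cutEdges c _).2]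
    have e1 : ∀ n, (2 * n + 1) % 2 = 1 := by intro n; omega
    have e2 : ∀ n, (2 * n + 1) / 2 = n := by intro n; omega
    have e3 : ∀ n, 2 * n % 2 = 0 := by intro n; omega
    have e4 : ∀ n, 2 * n / 2 = n := by intro n; omega
    simp only [e1, e2, e3, e4, if_true]
    refine ⟨hv c hc, ?_, ?_, ?_⟩ <;> simp
  · rintro ⟨χ, hχ⟩
    rw [sum_eq_iff _ _ fun c _ => (cutSize_cutEdges c _).1] at hχ
    refine ⟨fun n => χ (2 * n + 1), fun c hc => ?_⟩
    exact ((cutSize_cutEdges c χ).2.1 (hχ c hc)).1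

theorem isGraph_toCut (φ : List Cl) : IsGraph (toCut φ) := by
  unfold IsGraph toCut
  simp only [forall_mem_flatMap]
  intro c hc
  have h1 : c.1.1 + c.2.1.1 + c.2.2.1 ≤ (φ.map fun c => c.1.1 + c.2.1.1 + c.2.2.1).sum :=
    List.single_le_sum (fun _ _ => Nat.zero_le _) _ (List.mem_map.2 ⟨c, hc, rfl⟩)
  have hn : ∀ l : Lit, node l ≤ 2 * l.1 + 1 := by
    intro l
    unfold node
    split_ifs <;> omega
  have h2 := hn c.1
  have h3 := hn c.2.1
  have h4 := hn c.2.2
  simp only [cutEdges, List.forall_mem_cons, List.not_mem_nil, false_imp_iff, implies_true,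
    and_true]
  refine ⟨⟨?_, ?_⟩, ⟨?_, ?_⟩, ⟨?_, ?_⟩, ⟨?_, ?_⟩, ⟨?_, ?_⟩, ⟨?_, ?_⟩⟩ <;> omega

theorem PT_toCut : PT toCut := by
  unfold toCut cutEdges node
  fun_prop

/-- MAX-CUT (for multigraphs) is NP-hard. -/
theorem nphp_maxCut : NPHP IsGraph MaxCut :=
  nph_nae3.nphp.of_reduction toCut PT_toCut (fun φ _ => isGraph_toCut φ)
    (fun φ _ => nae3_iff_maxCut φ)

end Pool.Agent.H78.NP
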