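import Pool.Agent.H78.NP.SM
import Pool.Agent.H78.NP.Defs

/-!
# Mathlib's machines `FinTM2` as abstract multi-stack machines
-/

set_option autoImplicit false

namespace Pool.Agent.H78.NP

open Turing Function

/-- Controls: a statement still to be executed and the internal state. -/
abbrev Ctl (M : FinTM2) := TM2.Stmt M.Γ M.Λ M.σ × M.σ

/-- Symbols: input symbols, and the symbol pushed in a given control. -/
abbrev Smb (M : FinTM2) := M.Γ M.k₀ ⊕ Ctl M

/-- The symbol of the stack `k` represented by a symbol. -/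
def decS (M : FinTM2) (k : M.K) : Smb M → Option (M.Γ k)
  | .inl g => if h : M.k₀ = k then some (h ▸ g) else none
  | .inr (.push k' f _, v) => if h : k' = k then some (h ▸ f v) else none
  | .inr _ => none

/-- The machine executing one elementary instruction per step. -/
def smOf (M : FinTM2) : SM (Ctl M) M.K (Smb M) where
  κ := fun c => match c with
    | (.push k _ _, _) => k
    | (.peek k _ _, _) => k
    | (.pop k _ _, _) => k
    | _ => M.k₀
  δ := fun c h => match c with
    | (.push _ _ q, v) => (q, v)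
    | (.peek k f q, v) => (q, f v (h.bind (decS M k)))
    | (.pop k f q, v) => (q, f v (h.bind (decS M k)))
    | (.load a q, v) => (q, a v)
    | (.branch f q₁ q₂, v) => (cond (f v) q₁ q₂, v)
    | (.goto f, v) => (M.m (f v), v)
    | (.halt, v) => (.halt, v)
  op := fun c => match c with
    | (.push k f q, v) => some (some (.inr (.push k f q, v)))
    | (.pop _ _ _, _) => some none
    | _ => none

variable {M : FinTM2}

/-- The stacks `S'` represent the stacks `S`. -/
def Rel (S : ∀ k, List (M.Γ k)) (S' : M.K → List (Smb M)) : Prop :=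
  ∀ k, (S' k).map (decS M k) = (S k).map some

theorem Rel.head {S : ∀ k, List (M.Γ k)} {S' : M.K → List (Smb M)} (h : Rel S S') (k : M.K) :
    (S' k).head?.bind (decS M k) = (S k).head? := by
  have h1 := congrArg List.head? (h k)
  rw [List.head?_map, List.head?_map] at h1
  cases h2 : (S' k).head? with
  | none =>
    rw [h2] at h1
    cases h3 : (S k).head? with
    | none => rfl
    | some a => rw [h3] at h1; simp at h1
  | some a =>
    rw [h2] at h1
    cases h3 : (S k).head? with
    | none => rw [h3] at h1; simp at h1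
    | some b =>
      rw [h3] at h1
      simpa using h1

theorem Rel.update {S : ∀ k, List (M.Γ k)} {S' : M.K → List (Smb M)} (h : Rel S S') (k : M.K)
    (l : List (M.Γ k)) (l' : List (Smb M)) (hl : l'.map (decS M k) = l.map some) :
    Rel (update S k l) (update S' k l') := by
  intro j
  rcases eq_or_ne j k with rfl | hj
  · rw [update_self, update_self]
    exact hl
  · rw [update_of_ne hj, update_of_ne hj]
    exact h j

theorem Rel.tail {S : ∀ k, List (M.Γ k)} {S' : M.K → List (Smb M)} (h : Rel S S') (k : M.K) :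
    Rel (Function.update S k (S k).tail) (Function.update S' k (S' k).tail) := by
  refine h.update k _ _ ?_
  rw [List.map_tail, List.map_tail, h k]

/-- Number of elementary instructions of a statement. -/
def dep : TM2.Stmt M.Γ M.Λ M.σ → ℕ
  | .push _ _ q => dep q + 1
  | .peek _ _ q => dep q + 1
  | .pop _ _ q => dep q + 1
  | .load _ q => dep q + 1
  | .branch _ q₁ q₂ => max (dep q₁) (dep q₂) + 1
  | .goto _ => 1
  | .halt => 0

/-- The control corresponding to a configuration. -/
def ctl (c : TM2.Cfg M.Γ M.Λ M.σ) : Ctl M :=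
  match c.l with
  | some l => (M.m l, c.var)
  | none => (.halt, c.var)

theorem exists_run_stmt (q : TM2.Stmt M.Γ M.Λ M.σ) : ∀ (v : M.σ) (S : ∀ k, List (M.Γ k))
    (S' : M.K → List (Smb M)), Rel S S' → ∃ j ≤ dep q, ∃ S'' : M.K → List (Smb M),
      (smOf M).step^[j] ((q, v), S') = (ctl (TM2.stepAux q v S), S'') ∧
      Rel (TM2.stepAux q v S).stk S'' := by
  induction q with
  | push k f q ih =>
    intro v S S' h
    obtain ⟨j, hj, S'', h1, h2⟩ := ih v (update S k (f v :: S k))
      (update S' k (.inr (.push k f q, v) :: S' k)) (h.update k _ _ (by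
        rw [List.map_cons, List.map_cons, h k]
        simp [decS]))
    exact ⟨j + 1, Nat.succ_le_succ hj, S'', h1, h2⟩
  | peek k f q ih =>
    intro v S S' h
    obtain ⟨j, hj, S'', h1, h2⟩ := ih (f v (S k).head?) S S' h
    refine ⟨j + 1, Nat.succ_le_succ hj, S'', ?_, h2⟩
    rw [iterate_succ_apply]
    have e : (smOf M).step ((.peek k f q, v), S') = ((q, f v (S k).head?), S') := by
      have e1 : (smOf M).step ((.peek k f q, v), S') =
        ((q, f v ((S' k).head?.bind (decS M k))), update S' k (S' k)) := rfl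
      rw [e1, h.head k, update_eq_self]
    rw [e]
    exact h1
  | pop k f q ih =>
    intro v S S' h
    obtain ⟨j, hj, S'', h1, h2⟩ := ih (f v (S k).head?) (update S k (S k).tail)
      (update S' k (S' k).tail) (h.tail k)
    refine ⟨j + 1, Nat.succ_le_succ hj, S'', ?_, h2⟩
    rw [iterate_succ_apply]
    have e : (smOf M).step ((.pop k f q, v), S') =
        ((q, f v (S k).head?), update S' k (S' k).tail) := by
      have e1 : (smOf M).step ((.pop k f q, v), S') =
        ((q, f v ((S' k).head?.bind (decS M k))), update S' k (S' k).tail) := rfl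
      rw [e1, h.head k]
    rw [e]
    exact h1
  | load a q ih =>
    intro v S S' h
    obtain ⟨j, hj, S'', h1, h2⟩ := ih (a v) S S' h
    refine ⟨j + 1, Nat.succ_le_succ hj, S'', ?_, h2⟩
    rw [iterate_succ_apply]
    have e : (smOf M).step ((.load a q, v), S') = ((q, a v), S') := by
      have e1 : (smOf M).step ((.load a q, v), S') =
        ((q, a v), update S' M.k₀ (S' M.k₀)) := rfl
      rw [e1, update_eq_self]
    rw [e]
    exact h1
  | branch f q₁ q₂ ih₁ ih₂ =>
    intro v S S' h
    have e : (smOf M).step ((.branch f q₁ q₂, v), S') = ((cond (f v) q₁ q₂, v), S') := by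
      have e1 : (smOf M).step ((.branch f q₁ q₂, v), S') =
        ((cond (f v) q₁ q₂, v), update S' M.k₀ (S' M.k₀)) := rfl
      rw [e1, update_eq_self]
    cases hf : f v with
    | true =>
      obtain ⟨j, hj, S'', h1, h2⟩ := ih₁ v S S' h
      refine ⟨j + 1, Nat.succ_le_succ (hj.trans (le_max_left _ _)), S'', ?_, ?_⟩
      · rw [iterate_succ_apply, e, hf]
        simp only [TM2.stepAux, hf, cond_true]
        exact h1
      · simp only [TM2.stepAux, hf, cond_true]
        exact h2
    | false =>
      obtain ⟨j, hj, S'', h1, h2⟩ := ih₂ v S S' h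
      refine ⟨j + 1, Nat.succ_le_succ (hj.trans (le_max_right _ _)), S'', ?_, ?_⟩
      · rw [iterate_succ_apply, e, hf]
        simp only [TM2.stepAux, hf, cond_false]
        exact h1
      · simp only [TM2.stepAux, hf, cond_false]
        exact h2
  | goto f =>
    intro v S S' h
    refine ⟨1, le_rfl, S', ?_, h⟩
    have e1 : (smOf M).step ((.goto f, v), S') =
      ((M.m (f v), v), update S' M.k₀ (S' M.k₀)) := rfl
    rw [iterate_one, e1, update_eq_self]
    rfl
  | halt =>
    intro v S S' h
    exact ⟨0, le_rfl, S', rfl, h⟩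

/-- Bound for the number of elementary instructions per step. -/
noncomputable def bnd (M : FinTM2) : ℕ := by
  classical
  haveI := M.ΛFin
  exact (Finset.univ : Finset M.Λ).sup fun l => dep (M.m l)

theorem dep_le (l : M.Λ) : dep (M.m l) ≤ bnd M := by
  exact Finset.le_sup (f := fun l => dep (M.m l)) (@Finset.mem_univ _ M.ΛFin l)

theorem iterate_none (f : TM2.Cfg M.Γ M.Λ M.σ → Option (TM2.Cfg M.Γ M.Λ M.σ)) (n : ℕ) :
    (flip bind f)^[n] none = none := by
  induction n with
  | zero => rfl
  | succ n ih => rw [iterate_succ_apply]; exact ih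

theorem exists_run_steps (n : ℕ) : ∀ (c c' : TM2.Cfg M.Γ M.Λ M.σ) (S' : M.K → List (Smb M)),
    (flip bind (TM2.step M.m))^[n] (some c) = some c' → Rel c.stk S' →
    ∃ j ≤ n * bnd M, ∃ S'' : M.K → List (Smb M),
      (smOf M).step^[j] (ctl c, S') = (ctl c', S'') ∧ Rel c'.stk S'' := by
  induction n with
  | zero =>
    intro c c' S' h hR
    rw [iterate_zero, id, Option.some.injEq] at h
    subst h
    exact ⟨0, Nat.zero_le _, S', rfl, hR⟩
  | succ n ih =>
    rintro ⟨l, v, S⟩ c' S' h hR
    rw [iterate_succ_apply] at h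
    cases l with
    | none =>
      have e : flip bind (TM2.step M.m) (some (⟨none, v, S⟩ : TM2.Cfg M.Γ M.Λ M.σ)) = none := rfl
      rw [e, iterate_none] at h
      simp at h
    | some l =>
      have e : flip bind (TM2.step M.m) (some (⟨some l, v, S⟩ : TM2.Cfg M.Γ M.Λ M.σ)) =
        some (TM2.stepAux (M.m l) v S) := rfl
      rw [e] at h
      obtain ⟨j, hj, S₁, h1, h2⟩ := exists_run_stmt (M.m l) v S S' hR
      obtain ⟨j', hj', S₂, h3, h4⟩ := ih _ _ S₁ h h2
      refine ⟨j' + j, ?_, S₂, ?_, h4⟩
      · have := dep_le (M := M) l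
        rw [Nat.succ_mul]
        omega
      · rw [iterate_add_apply]
        have e2 : ctl (⟨some l, v, S⟩ : TM2.Cfg M.Γ M.Λ M.σ) = (M.m l, v) := rfl
        rw [e2, h1, h3]

theorem iterate_halt (v : M.σ) (S' : M.K → List (Smb M)) (j : ℕ) :
    (smOf M).step^[j] (((.halt : TM2.Stmt M.Γ M.Λ M.σ), v), S') = ((.halt, v), S') := by
  induction j with
  | zero => rfl
  | succ j ih =>
    rw [iterate_succ_apply]
    have e1 : (smOf M).step (((.halt : TM2.Stmt M.Γ M.Λ M.σ), v), S') =
      ((.halt, v), update S' M.k₀ (S' M.k₀)) := rfl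
    rw [e1, update_eq_self]
    exact ih

theorem rel_init (w : List (M.Γ M.k₀)) :
    Rel (initList M w).stk (SM.ini M.k₀ (w.map Sum.inl)) := by
  intro k
  unfold SM.ini
  by_cases hk : k = M.k₀
  · subst hk
    have e : (initList M w).stk M.k₀ = w := by
      unfold initList
      dsimp only
      rw [dif_pos rfl]
      rfl
    rw [if_pos rfl, e, List.map_map]
    refine List.map_congr_left fun a _ => ?_
    simp [decS]
  · have e : (initList M w).stk k = [] := by
      unfold initList
      dsimp only
      rw [dif_neg hk]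
    rw [if_neg hk, e]
    rfl

/-- The run of a machine that outputs the word `z`. -/
theorem exists_run (w : List (M.Γ M.k₀)) (z : List (M.Γ M.k₁)) (n : ℕ)
    (h : TM2OutputsInTime M w (some z) n) (T : ℕ) (hT : n * bnd M ≤ T) :
    ∃ S' : M.K → List (Smb M),
      (smOf M).run (M.m M.main, M.initialState) M.k₀ (w.map Sum.inl) T =
        ((.halt, M.initialState), S') ∧ (S' M.k₁).map (decS M M.k₁) = z.map some := by
  obtain ⟨⟨m, hm⟩, hmn⟩ := h
  obtain ⟨j, hj, S'', h1, h2⟩ := exists_run_steps m (initList M w) (haltList M z)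
    (SM.ini M.k₀ (w.map Sum.inl)) hm (rel_init w)
  have hjT : j ≤ T := hj.trans ((Nat.mul_le_mul_right _ hmn).trans hT)
  refine ⟨S'', ?_, ?_⟩
  · unfold SM.run
    obtain ⟨r, rfl⟩ := Nat.exists_eq_add_of_le hjT
    rw [Nat.add_comm, iterate_add_apply]
    have e1 : ctl (initList M w) = (M.m M.main, M.initialState) := rfl
    have e2 : ctl (haltList M z) = (.halt, M.initialState) := rfl
    rw [e1, e2] at h1
    rw [h1]
    exact iterate_halt _ _ _
  · have := h2 M.k₁
    have e : (haltList M z).stk M.k₁ = z := by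
      unfold haltList
      dsimp only
      rw [dif_pos rfl]
      rfl
    rw [e] at this
    exact this

/-! ### The finite sets of controls and symbols -/

open Classical in
/-- The statements in use. -/
noncomputable def FS (M : FinTM2) : Finset (TM2.Stmt M.Γ M.Λ M.σ) :=
  haveI := M.ΛFin
  ((Finset.univ : Finset M.Λ).biUnion fun l => TM2.stmts₁ (M.m l)) ∪ {.halt}

/-- The controls in use. -/
noncomputable def FC (M : FinTM2) : Finset (Ctl M) :=
  haveI := M.σFin
  FS M ×ˢ (Finset.univ : Finset M.σ)

open Classical in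
/-- The symbols in use. -/
noncomputable def FA (M : FinTM2) : Finset (Smb M) :=
  haveI := M.Γk₀Fin
  (Finset.univ : Finset (M.Γ M.k₀)).map ⟨Sum.inl, Sum.inl_injective⟩ ∪
    (FC M).map ⟨Sum.inr, Sum.inr_injective⟩

theorem mem_FS_of {q q' : TM2.Stmt M.Γ M.Λ M.σ} (hq : q ∈ FS M) (h : q' ∈ TM2.stmts₁ q) :
    q' ∈ FS M := by
  classical
  unfold FS at hq ⊢
  rw [Finset.mem_union, Finset.mem_biUnion] at hq ⊢
  rcases hq with ⟨l, hl, hq⟩ | hq
  · exact Or.inl ⟨l, hl, TM2.stmts₁_trans hq h⟩
  · rw [Finset.mem_singleton] at hq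
    subst hq
    right
    simpa [TM2.stmts₁] using h

theorem m_mem_FS (l : M.Λ) : M.m l ∈ FS M := by
  classical
  unfold FS
  rw [Finset.mem_union, Finset.mem_biUnion]
  exact Or.inl ⟨l, @Finset.mem_univ _ M.ΛFin l, TM2.stmts₁_self⟩

theorem mem_FC {c : Ctl M} : c ∈ FC M ↔ c.1 ∈ FS M := by
  unfold FC
  rw [Finset.mem_product]
  simp

theorem δ_mem (c : Ctl M) (hc : c ∈ FC M) (h : Option (Smb M)) : (smOf M).δ c h ∈ FC M := by
  classical
  rw [mem_FC] at hc ⊢
  obtain ⟨q, v⟩ := c
  cases q with
  | push k f q => exact mem_FS_of hc (by simp [smOf, TM2.stmts₁, TM2.stmts₁_self])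
  | peek k f q => exact mem_FS_of hc (by simp [smOf, TM2.stmts₁, TM2.stmts₁_self])
  | pop k f q => exact mem_FS_of hc (by simp [smOf, TM2.stmts₁, TM2.stmts₁_self])
  | load a q => exact mem_FS_of hc (by simp [smOf, TM2.stmts₁, TM2.stmts₁_self])
  | branch f q₁ q₂ =>
    refine mem_FS_of hc ?_
    change cond (f v) q₁ q₂ ∈ _
    cases f v <;> simp [TM2.stmts₁, TM2.stmts₁_self]
  | goto f => exact m_mem_FS _
  | halt => exact hc

theorem inr_mem_FA {c : Ctl M} (hc : c ∈ FC M) : (Sum.inr c : Smb M) ∈ FA M := by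
  classical
  unfold FA
  exact Finset.mem_union_right _ (Finset.mem_map.2 ⟨c, hc, rfl⟩)

theorem inl_mem_FA (g : M.Γ M.k₀) : (Sum.inl g : Smb M) ∈ FA M := by
  classical
  unfold FA
  exact Finset.mem_union_left _ (Finset.mem_map.2 ⟨g, @Finset.mem_univ _ M.Γk₀Fin g, rfl⟩)

theorem op_mem (c : Ctl M) (hc : c ∈ FC M) (a : Smb M) (h : (smOf M).op c = some (some a)) :
    a ∈ FA M := by
  obtain ⟨q, v⟩ := c
  cases q with
  | push k f q =>
    simp only [smOf, Option.some.injEq] at h
    subst h
    exact inr_mem_FA hc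
  | peek k f q => simp [smOf] at h
  | pop k f q => simp [smOf] at h
  | load a q => simp [smOf] at h
  | branch f q₁ q₂ => simp [smOf] at h
  | goto f => simp [smOf] at h
  | halt => simp [smOf] at h

end Pool.Agent.H78.NP
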