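import Pool.Agent.H78.NP.Raw
import Pool.Agent.H78.NP.Comp

/-!
# Machines whose input and output are plain words

The calculus of polynomial-time functions works with codes of trees. This file provides machines
with plain words as output, and with pairs of words as input (as required for verifiers).
-/

set_option autoImplicit false

namespace Pool.Agent.H78.NP

open Function Pool.Agent.H79.Cx Turing Computability

/-- Pour the stack `a` into the stack `v`. -/
def pourAV : Prog :=
  .loop .a isS (.seq (.ite .a isT (.push .v true) (.push .v false)) (.pop .a))

theorem run_pourAV (x : List Bool) : ∀ (v b c : List Bool),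
    RunLe pourAV (st v x b c) (st (x.reverse ++ v) [] b c) (4 * x.length + 1) := by
  induction x with
  | nil => intro a b c; exact RunLe.loopF (by simp)
  | cons y x ih =>
    intro v b c
    have h0 : RunLe (.ite .a isT (.push .v true) (.push .v false)) (st v (y :: x) b c)
        (st (y :: v) (y :: x) b c) 2 := by
      cases y
      · have h := RunLe.push .v false (st v (false :: x) b c)
        simp only [st_v, update_v] at h
        exact RunLe.iteF (by simp) h
      · have h := RunLe.push .v true (st v (true :: x) b c)
        simp only [st_v, update_v] at h
        exact RunLe.iteT (by simp) h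
    have h1 := RunLe.pop .a (st (y :: v) (y :: x) b c)
    simp only [st_a, update_a, List.tail_cons] at h1
    have h2 := RunLe.loopT (k := .a) (t := isS) (S := st v (y :: x) b c) (by simp)
      (RunLe.seq h0 h1) (ih (y :: v) b c)
    simp only [List.reverse_cons, List.append_assoc, List.cons_append, List.nil_append]
    exact h2.mono (by simp; omega)

/-- Body of the loop reading the code of a word. -/
def decodeBody : Prog :=
  .seq (.pop .v) (.ite .v isT
    (.seq (.pop .v) (.seq (.pop .v) (.seq (.pop .v) (.push .a true))))
    (.seq (.pop .v) (.push .a false)))

theorem run_decodeLoop (x : List Bool) : ∀ (a : List Bool),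
    RunLe (.loop .v isT decodeBody) (st (cd x) a [] []) (st [false] (x.reverse ++ a) [] [])
      (7 * x.length + 1) := by
  induction x with
  | nil => intro a; exact RunLe.loopF (by simp [cd, Enc.enc, encList])
  | cons b x ih =>
    intro a
    have hb : cd (b :: x) = true :: (cd b ++ cd x) := rfl
    have h0 : RunLe decodeBody (st (cd (b :: x)) a [] []) (st (cd x) (b :: a) [] []) 6 := by
      rw [hb]
      have h1 := RunLe.pop .v (st (true :: (cd b ++ cd x)) a [] [])
      simp only [st_v, update_v, List.tail_cons] at h1
      cases b with
      | true =>
        have hc : cd true = [true, false, false] := rfl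
        rw [hc] at h1 ⊢
        simp only [List.cons_append, List.nil_append] at h1 ⊢
        have h2 := RunLe.pop .v (st (true :: false :: false :: cd x) a [] [])
        simp only [st_v, update_v, List.tail_cons] at h2
        have h3 := RunLe.pop .v (st (false :: false :: cd x) a [] [])
        simp only [st_v, update_v, List.tail_cons] at h3
        have h4 := RunLe.pop .v (st (false :: cd x) a [] [])
        simp only [st_v, update_v, List.tail_cons] at h4
        have h5 := RunLe.push .a true (st (cd x) a [] [])
        simp only [st_a, update_a] at h5
        exact (RunLe.seq h1 (RunLe.iteT (k := .v) (t := isT) (by simp)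
          (RunLe.seq h2 (RunLe.seq h3 (RunLe.seq h4 h5))))).mono (by omega)
      | false =>
        have hc : cd false = [false] := rfl
        rw [hc] at h1 ⊢
        simp only [List.cons_append, List.nil_append] at h1 ⊢
        have h4 := RunLe.pop .v (st (false :: cd x) a [] [])
        simp only [st_v, update_v, List.tail_cons] at h4
        have h5 := RunLe.push .a false (st (cd x) a [] [])
        simp only [st_a, update_a] at h5
        exact (RunLe.seq h1 (RunLe.iteF (k := .v) (t := isT) (by simp)
          (RunLe.seq h4 h5))).mono (by omega)
    have h2 := RunLe.loopT (k := .v) (t := isT) (S := st (cd (b :: x)) a [] [])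
      (by rw [hb]; simp) h0 (ih (b :: a))
    simp only [List.reverse_cons, List.append_assoc, List.cons_append, List.nil_append]
    exact h2.mono (by simp; omega)

/-- Turn the code of a word into the word. -/
def decodeP : Prog := .seq (.loop .v isT decodeBody) (.seq (.pop .v) pourAV)

theorem run_decodeP (x : List Bool) :
    RunLe decodeP (st (cd x) [] [] []) (st x [] [] []) (11 * x.length + 3) := by
  have h1 := run_decodeLoop x []
  have h2 := RunLe.pop .v (st [false] (x.reverse ++ []) [] [])
  simp only [st_v, update_v, List.tail_cons] at h2
  have h3 := run_pourAV (x.reverse ++ []) [] [] []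
  have e : (x.reverse ++ []).reverse ++ [] = x := by simp
  rw [e] at h3
  refine (RunLe.seq h1 (RunLe.seq h2 h3)).mono ?_
  simp only [List.append_nil, List.length_reverse]
  omega

theorem length_le_sz_word (x : List Bool) : x.length ≤ sz x := by
  induction x with
  | nil => simp
  | cons b x ih =>
    simp only [sz_cons, List.length_cons]
    omega

/-- A polynomial-time function from words to words is computable by a machine in polynomial
time, with plain words as input and output. -/
theorem toTM2_words {f : List Bool → List Bool} (hf : PT f) :
    Nonempty (TM2ComputableInPolyTime (id : List Bool → List Bool)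
      (id : List Bool → List Bool) f) := by
  obtain ⟨Q, hQ⟩ := hf.size_le
  obtain ⟨p, P, hp⟩ := hf
  refine toTM2 (.seq preP (.seq p decodeP)) (12 * Polynomial.X + 3 +
    (P.comp (4 * Polynomial.X + 1) + (11 * Q.comp (4 * Polynomial.X + 1) + 3)))
    fun x => ?_
  have h1 := hp x []
  rw [List.append_nil, List.append_nil] at h1
  obtain ⟨m, hm, hrun⟩ := RunLe.seq (run_preP x) (RunLe.seq h1 (run_decodeP (f x)))
  refine ⟨m, hm.trans ?_, ?_⟩
  · simp only [Polynomial.eval_add, Polynomial.eval_mul, Polynomial.eval_ofNat,
      Polynomial.eval_X, Polynomial.eval_comp, Polynomial.eval_one, id]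
    have e1 := eval_mono P (sz_word_le x)
    have e2 := (length_le_sz_word (f x)).trans ((hQ x).trans (eval_mono Q (sz_word_le x)))
    omega
  · rw [only_eq, only_eq]
    exact hrun

/-! ### Pairs of words as input -/

namespace Pre

/-- The stacks of the transducer. -/
inductive K3
  | i
  | t
  | o
  deriving DecidableEq

instance : Fintype K3 := ⟨{K3.i, K3.t, K3.o}, by intro x; cases x <;> simp⟩

/-- The stack alphabets of the transducer. -/
abbrev G3 : K3 → Type
  | .i => Option Bool
  | .t => Option Bool
  | .o => Bool

/-- First bit of the code of a symbol. -/
def bit1 : Option Bool → Bool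
  | none => false
  | some b => b

/-- Second bit of the code of a symbol. -/
def bit2 : Option Bool → Bool
  | none => false
  | some _ => true

/-- The statements of the transducer. -/
def prog : Bool → TM2.Stmt G3 Bool (Option (Option Bool))
  | false => .pop K3.i (fun _ s => s) (.branch (fun s => s.isSome)
      (.push K3.t (fun s => s.getD none) (.goto fun _ => false)) (.goto fun _ => true))
  | true => .pop K3.t (fun _ s => s) (.branch (fun s => s.isSome)
      (.push K3.o (fun s => bit2 (s.getD none)) (.push K3.o (fun s => bit1 (s.getD none))
        (.goto fun _ => true))) .halt)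

/-- The contents of the stacks. -/
def stk3 (x y : List (Option Bool)) (z : List Bool) : ∀ k, List (G3 k)
  | .i => x
  | .t => y
  | .o => z

theorem update_i (x y : List (Option Bool)) (z : List Bool) (x' : List (Option Bool)) :
    update (stk3 x y z) K3.i x' = stk3 x' y z := by
  funext k
  cases k <;> rfl

theorem update_t (x y : List (Option Bool)) (z : List Bool) (y' : List (Option Bool)) :
    update (stk3 x y z) K3.t y' = stk3 x y' z := by
  funext k
  cases k <;> rfl

theorem update_o (x y : List (Option Bool)) (z : List Bool) (z' : List Bool) :
    update (stk3 x y z) K3.o z' = stk3 x y z' := by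
  funext k
  cases k <;> rfl

/-- The code of a word over the alphabet with a separator. -/
def recode (w : List (Option Bool)) : List Bool := w.flatMap fun s => [bit1 s, bit2 s]

theorem run1 (x : List (Option Bool)) : ∀ (s : Option (Option Bool)) (y : List (Option Bool)),
    (flip bind (TM2.step prog))^[x.length + 1] (some ⟨some false, s, stk3 x y []⟩) =
      some ⟨some true, none, stk3 [] (x.reverse ++ y) []⟩ := by
  induction x with
  | nil =>
    intro s y
    simp only [List.length_nil, Nat.zero_add, iterate_one, flip, Option.bind_eq_bind,
      Option.bind_some, TM2.step, prog, TM2.stepAux]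
    simp [stk3, update_i]
  | cons a x ih =>
    intro s y
    rw [List.length_cons, iterate_add_apply, iterate_one]
    have e : flip bind (TM2.step prog) (some ⟨some false, s, stk3 (a :: x) y []⟩) =
        some ⟨some false, some a, stk3 x (a :: y) []⟩ := by
      simp only [flip, Option.bind_eq_bind, Option.bind_some, TM2.step, prog, TM2.stepAux]
      simp [stk3, update_i, update_t]
    rw [e, ih]
    simp

theorem run2 (y : List (Option Bool)) : ∀ (s : Option (Option Bool)) (z : List Bool),
    (flip bind (TM2.step prog))^[y.length + 1] (some ⟨some true, s, stk3 [] y z⟩) =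
      some ⟨none, none, stk3 [] [] (recode y.reverse ++ z)⟩ := by
  induction y with
  | nil =>
    intro s z
    simp only [List.length_nil, Nat.zero_add, iterate_one, flip, Option.bind_eq_bind,
      Option.bind_some, TM2.step, prog, TM2.stepAux]
    simp [stk3, update_t, recode]
  | cons a y ih =>
    intro s z
    rw [List.length_cons, iterate_add_apply, iterate_one]
    have e : flip bind (TM2.step prog) (some ⟨some true, s, stk3 [] (a :: y) z⟩) =
        some ⟨some true, some a, stk3 [] y (bit1 a :: bit2 a :: z)⟩ := by
      simp only [flip, Option.bind_eq_bind, Option.bind_some, TM2.step, prog, TM2.stepAux]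
      simp [stk3, update_t, update_o]
    rw [e, ih]
    simp [recode]

/-- The transducer. -/
noncomputable def machine : FinTM2 where
  K := K3
  k₀ := K3.i
  k₁ := K3.o
  Γ := G3
  Λ := Bool
  main := false
  ΛFin := inferInstance
  σ := Option (Option Bool)
  initialState := none
  Γk₀Fin := inferInstanceAs (Fintype (Option Bool))
  m := prog

theorem outputs (x : List (Option Bool)) :
    (flip bind machine.step)^[2 * x.length + 2] (some (initList machine x)) =
      some (haltList machine (recode x)) := by
  have h1 : initList machine x = ⟨some false, none, stk3 x [] []⟩ := by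
    unfold initList
    congr 1
    funext k
    cases k <;> rfl
  have h2 : haltList machine (recode x) = ⟨none, none, stk3 [] [] (recode x)⟩ := by
    unfold haltList
    congr 1
    funext k
    cases k <;> rfl
  rw [h1, h2]
  have e1 := run1 x none []
  have e2 := run2 (x.reverse ++ []) none []
  have e3 : 2 * x.length + 2 = (x.reverse ++ []).length + 1 + (x.length + 1) := by
    simp
    omega
  rw [e3, iterate_add_apply]
  have e4 : recode (x.reverse ++ []).reverse ++ [] = recode x := by simp
  rw [e4] at e2
  exact (congrArg _ e1).trans e2

theorem poly {α : Type} (ea : α → List (Option Bool)) :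
    Nonempty (TM2ComputableInPolyTime ea (fun a => recode (ea a)) (id : α → α)) := by
  refine ⟨{ tm := machine, inputAlphabet := Equiv.refl (Option Bool),
            outputAlphabet := Equiv.refl Bool,
            time := 2 * Polynomial.X + 2, outputsFun := fun a => ?_ }⟩
  refine { steps := 2 * (ea a).length + 2, evals_in_steps := ?_, steps_le_m := ?_ }
  · have e1 : List.map (Equiv.refl (Option Bool)).invFun (ea a) = ea a := List.map_id _
    have e2 : List.map (Equiv.refl Bool).invFun (recode (ea a)) = recode (ea a) := List.map_id _
    exact (congrArg (fun x => (flip bind machine.step)^[2 * (ea a).length + 2]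
      (some (initList machine x))) e1).trans ((outputs (ea a)).trans
        (congrArg (fun y => some (haltList machine y)) e2.symm))
  · simp

end Pre

open Pre

/-- Body of the loop reading symbols with a separator. -/
def pairBody : Prog :=
  .ite .a isT
    (.seq (.pop .a) (.seq (.ite .a isT (.seq (.push .v false) (.seq (.push .v false)
      (.push .v true))) (.push .v false)) (.seq (.push .v true) (.pop .a))))
    (.seq (.pop .a) (.seq (.pop .a) (.push .v false)))

/-- The value built by the loop. -/
def acc : List (Option Bool) → List Bool → List Bool
  | [], r => r
  | none :: L, r => acc L (false :: r)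
  | some b :: L, r => acc L (true :: (cd b ++ r))

/-- Reversed code. -/
def rrec (L : List (Option Bool)) : List Bool := L.flatMap fun s => [bit2 s, bit1 s]

theorem rrec_eq (L : List (Option Bool)) : (recode L).reverse = rrec L.reverse := by
  induction L with
  | nil => rfl
  | cons a L ih =>
    have e : recode (a :: L) = bit1 a :: bit2 a :: recode L := rfl
    rw [e, List.reverse_cons, List.reverse_cons, ih, List.reverse_cons]
    simp [rrec]

theorem run_pairLoop (L : List (Option Bool)) : ∀ (r : List Bool),
    RunLe (.loop .a isS pairBody) (st r (rrec L) [] []) (st (acc L r) [] [] [])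
      (9 * L.length + 1) := by
  induction L with
  | nil => intro r; exact RunLe.loopF (by simp [rrec])
  | cons s L ih =>
    intro r
    have hr : rrec (s :: L) = bit2 s :: bit1 s :: rrec L := rfl
    cases s with
    | none =>
      have h1 := RunLe.pop .a (st r (false :: false :: rrec L) [] [])
      simp only [st_a, update_a, List.tail_cons] at h1
      have h2 := RunLe.pop .a (st r (false :: rrec L) [] [])
      simp only [st_a, update_a, List.tail_cons] at h2
      have h3 := RunLe.push .v false (st r (rrec L) [] [])
      simp only [st_v, update_v] at h3
      have h0 : RunLe pairBody (st r (rrec (none :: L)) [] []) (st (false :: r) (rrec L) [] [])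
          8 := by
        rw [hr]
        exact (RunLe.iteF (k := .a) (t := isT) (by simp) (RunLe.seq h1
          (RunLe.seq h2 h3))).mono (by omega)
      have h4 := RunLe.loopT (k := .a) (t := isS) (S := st r (rrec (none :: L)) [] [])
        (by rw [hr]; simp) h0 (ih (false :: r))
      exact h4.mono (by simp; omega)
    | some b =>
      have h1 := RunLe.pop .a (st r (true :: b :: rrec L) [] [])
      simp only [st_a, update_a, List.tail_cons] at h1
      have h0 : RunLe pairBody (st r (rrec (some b :: L)) [] [])
          (st (true :: (cd b ++ r)) (rrec L) [] []) 8 := by
        rw [hr]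
        cases b with
        | true =>
          have hc : cd true = [true, false, false] := rfl
          rw [hc]
          have h2 := RunLe.push .v false (st r (true :: rrec L) [] [])
          simp only [st_v, update_v] at h2
          have h3 := RunLe.push .v false (st (false :: r) (true :: rrec L) [] [])
          simp only [st_v, update_v] at h3
          have h4 := RunLe.push .v true (st (false :: false :: r) (true :: rrec L) [] [])
          simp only [st_v, update_v] at h4
          have h5 := RunLe.push .v true (st (true :: false :: false :: r) (true :: rrec L) [] [])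
          simp only [st_v, update_v] at h5
          have h6 := RunLe.pop .a (st (true :: true :: false :: false :: r)
            (true :: rrec L) [] [])
          simp only [st_a, update_a, List.tail_cons] at h6
          exact (RunLe.iteT (k := .a) (t := isT) (by simp) (RunLe.seq h1
            (RunLe.seq (RunLe.iteT (k := .a) (t := isT) (by simp)
              (RunLe.seq h2 (RunLe.seq h3 h4))) (RunLe.seq h5 h6)))).mono (by omega)
        | false =>
          have hc : cd false = [false] := rfl
          rw [hc]
          have h2 := RunLe.push .v false (st r (false :: rrec L) [] [])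
          simp only [st_v, update_v] at h2
          have h5 := RunLe.push .v true (st (false :: r) (false :: rrec L) [] [])
          simp only [st_v, update_v] at h5
          have h6 := RunLe.pop .a (st (true :: false :: r) (false :: rrec L) [] [])
          simp only [st_a, update_a, List.tail_cons] at h6
          exact (RunLe.iteT (k := .a) (t := isT) (by simp) (RunLe.seq h1
            (RunLe.seq (RunLe.iteF (k := .a) (t := isT) (by simp) h2)
              (RunLe.seq h5 h6)))).mono (by omega)
      have h4 := RunLe.loopT (k := .a) (t := isS) (S := st r (rrec (some b :: L)) [] [])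
        (by rw [hr]; simp) h0 (ih (true :: (cd b ++ r)))
      exact h4.mono (by simp; omega)

theorem acc_word (u : List Bool) : ∀ (y : List Bool) (R : List (Option Bool)) (r : List Bool),
    acc ((u.map some).reverse ++ R) (cd y ++ r) = acc R (cd (u ++ y) ++ r) := by
  induction u with
  | nil => intro y R r; rfl
  | cons b u ih =>
    intro y R r
    rw [List.map_cons, List.reverse_cons, List.append_assoc, ih]
    have e : acc ([some b] ++ R) (cd (u ++ y) ++ r) =
        acc R (true :: (cd b ++ (cd (u ++ y) ++ r))) := rfl
    rw [e]
    have e2 : cd (b :: u ++ y) = true :: (cd b ++ cd (u ++ y)) := rfl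
    rw [e2]
    simp

theorem acc_pair (p : List Bool × List Bool) :
    acc (pairEnc p).reverse (false :: []) = cd p.1 ++ cd p.2 := by
  have h1 := acc_word p.2 [] (none :: (p.1.map some).reverse) []
  have h2 := acc_word p.1 [] [] (cd p.2)
  have e : (pairEnc p).reverse =
      (p.2.map some).reverse ++ (none :: (p.1.map some).reverse) := by
    simp [pairEnc]
  have hc : cd ([] : List Bool) = [false] := rfl
  rw [e]
  rw [hc] at h1 h2
  simp only [List.append_nil, List.cons_append, List.nil_append] at h1 h2
  rw [h1]
  exact h2

/-- Turn a pair of words into its code. -/
def pairP : Prog := .seq pourVA (.seq (.push .v false) (.seq (.loop .a isS pairBody)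
  (.push .v true)))

theorem run_pairP (p : List Bool × List Bool) :
    RunLe pairP (st (recode (pairEnc p)) [] [] []) (st (cd p) [] [] [])
      (9 * (recode (pairEnc p)).length + 4) := by
  have h1 := run_pourVA (recode (pairEnc p)) [] [] []
  rw [rrec_eq, List.append_nil] at h1
  have h2 := RunLe.push .v false (st [] (rrec (pairEnc p).reverse) [] [])
  simp only [st_v, update_v] at h2
  have h3 := run_pairLoop (pairEnc p).reverse [false]
  rw [acc_pair] at h3
  have h4 := RunLe.push .v true (st (cd p.1 ++ cd p.2) [] [] [])
  simp only [st_v, update_v] at h4
  have e : cd p = true :: (cd p.1 ++ cd p.2) := rfl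
  rw [e]
  refine (RunLe.seq h1 (RunLe.seq h2 (RunLe.seq h3 h4))).mono ?_
  have e2 : (recode (pairEnc p)).length = 2 * (pairEnc p).length := by
    unfold recode
    induction pairEnc p with
    | nil => rfl
    | cons a l ih => simp only [List.flatMap_cons, List.length_append, ih, List.length_cons,
        List.length_nil]; omega
  rw [List.length_reverse, e2]
  omega

/-- Turn the code of a truth value into the truth value. -/
def boolP : Prog :=
  .ite .v isT (.seq (.pop .v) (.seq (.pop .v) (.seq (.pop .v) (.push .v true)))) skip

theorem run_boolP (b : Bool) : RunLe boolP (st (cd b) [] [] []) (st [b] [] [] []) 6 := by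
  cases b with
  | true =>
    have h1 := RunLe.pop .v (st (cd true) [] [] [])
    have h2 := RunLe.pop .v (st [false, false] [] [] [])
    have h3 := RunLe.pop .v (st [false] [] [] [])
    have h4 := RunLe.push .v true (st [] [] [] [])
    have hc : cd true = [true, false, false] := rfl
    rw [hc] at h1 ⊢
    simp only [st_v, update_v, List.tail_cons] at h1 h2 h3 h4
    exact (RunLe.iteT (k := .v) (t := isT) (by simp) (RunLe.seq h1 (RunLe.seq h2
      (RunLe.seq h3 h4)))).mono (by omega)
  | false =>
    have hc : cd false = [false] := rfl
    rw [hc]
    exact (RunLe.iteF (k := .v) (t := isT) (by simp) (run_skip _)).mono (by omega)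

theorem sz_pairEnc (p : List Bool × List Bool) :
    sz p ≤ 2 * (recode (pairEnc p)).length + 1 := by
  have h1 := sz_word_le p.1
  have h2 := sz_word_le p.2
  have e2 : (recode (pairEnc p)).length = 2 * (pairEnc p).length := by
    unfold recode
    induction pairEnc p with
    | nil => rfl
    | cons a l ih => simp only [List.flatMap_cons, List.length_append, ih, List.length_cons,
        List.length_nil]; omega
  have e3 : (pairEnc p).length = p.1.length + 1 + p.2.length := by
    simp [pairEnc]
    omega
  rw [sz_pair, e2, e3]
  omega

/-- A polynomial-time test of pairs of words is computable by a machine in polynomial time. -/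
theorem toTM2_pair {V : List Bool × List Bool → Bool} (hV : PT V) :
    Nonempty (TM2ComputableInPolyTime pairEnc encodeBool V) := by
  obtain ⟨p, P, hp⟩ := hV
  have h2 : Nonempty (TM2ComputableInPolyTime (fun a => recode (pairEnc a)) encodeBool V) := by
    refine toTM2 (.seq pairP (.seq p boolP)) (9 * Polynomial.X + 4 +
      (P.comp (2 * Polynomial.X + 1) + 6)) fun x => ?_
    have h1 := hp x []
    rw [List.append_nil, List.append_nil] at h1
    obtain ⟨m, hm, hrun⟩ := RunLe.seq (run_pairP x) (RunLe.seq h1 (run_boolP (V x)))
    refine ⟨m, hm.trans ?_, ?_⟩
    · simp only [Polynomial.eval_add, Polynomial.eval_mul, Polynomial.eval_ofNat,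
        Polynomial.eval_X, Polynomial.eval_comp, Polynomial.eval_one]
      have e1 := eval_mono P (sz_pairEnc x)
      omega
    · rw [only_eq, only_eq]
      exact hrun
  exact comp (poly pairEnc) h2

/-- Membership in NP from a verifier in the calculus of polynomial-time functions. -/
theorem inNP_of_PT {L : Set (List Bool)} (p : Polynomial ℕ) (V : List Bool × List Bool → Bool)
    (hV : PT V)
    (h : ∀ x, x ∈ L ↔ ∃ u : List Bool, u.length ≤ p.eval x.length ∧ V (x, u) = true) :
    InNP L :=
  ⟨p, V, toTM2_pair hV, h⟩

/-- Membership in P from a test in the calculus of polynomial-time functions. -/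
theorem inP_of_PT {L : Set (List Bool)} (V : List Bool → Bool) (hV : PT V)
    (h : ∀ x, x ∈ L ↔ V x = true) : InP L := by
  obtain ⟨p, P, hp⟩ := hV
  have e : (fun x => @decide (x ∈ L) (Classical.propDecidable _)) = V := by
    funext x
    rw [Bool.eq_iff_iff, @decide_eq_true_eq (x ∈ L) (Classical.propDecidable _)]
    exact h x
  have key : Nonempty (TM2ComputableInPolyTime (id : List Bool → List Bool) encodeBool V) := by
    refine toTM2 (.seq preP (.seq p boolP)) (12 * Polynomial.X + 3 +
      (P.comp (4 * Polynomial.X + 1) + 6)) fun x => ?_
    have h1 := hp x []
    rw [List.append_nil, List.append_nil] at h1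
    obtain ⟨m, hm, hrun⟩ := RunLe.seq (run_preP x) (RunLe.seq h1 (run_boolP (V x)))
    refine ⟨m, hm.trans ?_, ?_⟩
    · simp only [Polynomial.eval_add, Polynomial.eval_mul, Polynomial.eval_ofNat,
        Polynomial.eval_X, Polynomial.eval_comp, Polynomial.eval_one, id]
      have e1 := eval_mono P (sz_word_le x)
      omega
    · rw [only_eq, only_eq]
      exact hrun
  unfold InP
  rw [e]
  exact key

end Pool.Agent.H78.NP
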